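import Pool.Agent.Lib.GHApprox.DynRun

set_option autoImplicit false

/-!
Dynamic part, step 4: epochs, bad sets and their recursion; the bound for the remaining edges.
-/

namespace Pool.Agent.Lib.GHApprox

open Finset Classical

section bad

variable {U V : Type} [Fintype U] [Fintype V]

/-- the `j`-th grid point. -/
def tt (N L j : ℕ) : ℕ := min (j * L) N

/-- all hypotheses on the sequence. -/
structure Run (T : SimpleGraph U) (G : SimpleGraph V) (P : Finset (V × V)) (m Δ d N L J : ℕ)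
    (e α Φ lam s δ δ2 δ3 β : ℝ)
    (H : ℕ → SimpleGraph V) (w : ℕ → (U → V) → ℝ) (X : ℕ → V → ℝ) (Y : ℕ → V → V → ℝ) :
    Prop where
  hm1 : 1 ≤ m
  hd : 0 < d
  hmd : m + 1 ≤ 2 * d
  hG : ∀ v, deg G v = d
  hlam : 0 < lam
  hlam1 : lam < 1
  he : 0 < e
  he1 : e ≤ 1
  hγ : ∀ k ≤ N, e ≤ (1 - lam) ^ k
  hs0 : 0 ≤ s
  hs : lam * N ≤ s
  hL : 0 < L
  hL' : lam * L ≤ δ3
  hJ : N ≤ J * L
  hw : ∀ k, IsWeight T (H k) m Δ d e α Φ (w k)
  hanti : ∀ k, H (k + 1) ≤ H k
  hHG : ∀ k, H k ≤ G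
  hdeg : ∀ k v, (deg (H k) v : ℝ) = (1 - lam) ^ k *
        (X k v + ∑ i ∈ range k, lam * ff T m (H i) (w i) v / (1 - lam) ^ (i + 1))
  hcod : ∀ k u v, (codeg (H k) u v : ℝ) ≤ ((1 - lam) ^ k) ^ 2 *
        (Y k u v + ∑ i ∈ range k, lam * ff2 T m (H i) (w i) u v / ((1 - lam) ^ (i + 1)) ^ 2)
  hP : ∀ u v, u ≠ v → 0 < codeg G u v → (u, v) ∈ P
  hβ1 : ∀ j ≤ J, ((univ.filter fun v => δ * d ≤ |X (tt N L j) v - d|).card : ℝ) ≤ β
  hβ2 : ∀ j ≤ J, ((P.filter fun p => δ * d ≤ Y (tt N L j) p.1 p.2 - d).card : ℝ) ≤ β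
  hΦ : 0 ≤ Φ
  hδ : 0 < δ
  hδh : δ ≤ 1 / 2
  hδ2 : 0 < δ2
  hδ3 : δ3 ≤ 1
  hed : 4 ≤ e * d
  hα1 : δ + δ3 ≤ α
  hα2 : 2 * δ3 + δ + (2 * δ2 + s * δ2) / e ^ 2 + 4 * s * Δ / (e ^ 3 * d) ≤ α

variable {T : SimpleGraph U} {G : SimpleGraph V} {P : Finset (V × V)} {m Δ d N L J : ℕ}
    {e α Φ lam s δ δ2 δ3 β : ℝ}
    {H : ℕ → SimpleGraph V} {w : ℕ → (U → V) → ℝ} {X : ℕ → V → ℝ} {Y : ℕ → V → V → ℝ}

/-- vertices whose corrected degree is once far from `d`. -/
noncomputable def S1 (X : ℕ → V → ℝ) (N L J d : ℕ) (δ : ℝ) : Finset V :=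
  (range (J + 1)).biUnion fun j => univ.filter fun v => δ * d ≤ |X (tt N L j) v - d|

/-- vertices in a pair whose corrected codegree is once too large. -/
noncomputable def S2 (P : Finset (V × V)) (Y : ℕ → V → V → ℝ) (N L J d : ℕ) (δ : ℝ) : Finset V :=
  (range (J + 1)).biUnion fun j =>
    (P.filter fun p => δ * d ≤ Y (tt N L j) p.1 p.2 - d).image Prod.snd

/-- vertices with many neighbours in `S1`. -/
noncomputable def S3 (G : SimpleGraph V) (X : ℕ → V → ℝ) (N L J d : ℕ) (δ δ2 : ℝ) : Finset V :=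
  univ.filter fun u => δ2 * d ≤ (nb G u ∩ S1 X N L J d δ).card

/-- the initial bad set. -/
noncomputable def B0 (G : SimpleGraph V) (P : Finset (V × V)) (X : ℕ → V → ℝ)
    (Y : ℕ → V → V → ℝ) (N L J d : ℕ) (δ δ2 : ℝ) : Finset V :=
  S1 X N L J d δ ∪ S2 P Y N L J d δ ∪ S3 G X N L J d δ δ2

/-- the bad set at the `j`-th grid point. -/
noncomputable def Bj (T : SimpleGraph U) (G : SimpleGraph V) (P : Finset (V × V))
    (H : ℕ → SimpleGraph V) (w : ℕ → (U → V) → ℝ) (X : ℕ → V → ℝ)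
    (Y : ℕ → V → V → ℝ) (m N L J d : ℕ) (lam δ δ2 : ℝ) (j : ℕ) : Finset V :=
  B0 G P X Y N L J d δ δ2 ∪ univ.filter fun v =>
    δ2 * d ≤ ∑ i ∈ range (tt N L j), lam * ff T m (H i) (w i) v

lemma tt_mono (N L : ℕ) : Monotone (tt N L) := by
  intro a b h
  unfold tt
  have := Nat.mul_le_mul_right L h
  omega

lemma tt_succ_le (N L j : ℕ) : tt N L (j + 1) ≤ tt N L j + L := by
  unfold tt
  have : (j + 1) * L = j * L + L := by ring
  omega

namespace Run

variable (R : Run T G P m Δ d N L J e α Φ lam s δ δ2 δ3 β H w X Y)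

include R

lemma tt_J : tt N L J = N := min_eq_right R.hJ

lemma tt_le (j : ℕ) : tt N L j ≤ N := min_le_right _ _

lemma g0 : 0 < 1 - lam := by linarith [R.hlam1]

lemma gpow (k : ℕ) : 0 < (1 - lam) ^ k := pow_pos R.g0 k

lemma gpow1 (k : ℕ) : (1 - lam) ^ k ≤ 1 := pow_le_one₀ R.g0.le (by linarith [R.hlam])

lemma ganti {i k : ℕ} (h : i ≤ k) : (1 - lam) ^ k ≤ (1 - lam) ^ i :=
  pow_le_pow_of_le_one R.g0.le (by linarith [R.hlam]) h

lemma anti {i k : ℕ} (h : i ≤ k) : H k ≤ H i := antitone_nat_of_succ_le R.hanti h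

lemma ff_nn (i : ℕ) (v : V) : 0 ≤ ff T m (H i) (w i) v := (R.hw i).ff_nonneg R.hm1 v

lemma ff2_nn (i : ℕ) (u v : V) : 0 ≤ ff2 T m (H i) (w i) u v := (R.hw i).ff2_nonneg R.hm1 u v

lemma dpos : (0 : ℝ) < d := by exact_mod_cast R.hd

/-- one epoch loses at most a factor `1 - δ3`. -/
lemma gL {i k : ℕ} (h : k ≤ i + L) : (1 - lam) ^ i * (1 - δ3) ≤ (1 - lam) ^ k := by
  have h1 : (1 - lam) ^ (i + L) ≤ (1 - lam) ^ k := R.ganti h
  refine le_trans ?_ h1
  rw [pow_add]
  apply mul_le_mul_of_nonneg_left _ (R.gpow i).le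
  have h2 := one_add_mul_le_pow (a := -lam) (by linarith [R.hlam1]) L
  have h3 := R.hL'
  have h4 : (1 + -lam) ^ L = (1 - lam) ^ L := by ring
  rw [h4] at h2
  linarith

lemma deg_lower {j : ℕ} (hj : j ≤ J) {v : V} (hv : v ∉ S1 X N L J d δ) :
    (1 - lam) ^ (tt N L j) * ((1 - δ) * d) ≤ deg (H (tt N L j)) v := by
  rw [R.hdeg]
  apply mul_le_mul_of_nonneg_left _ (R.gpow _).le
  have h1 : |X (tt N L j) v - d| < δ * d := by
    by_contra hc
    apply hv
    rw [S1, mem_biUnion]
    exact ⟨j, mem_range.2 (by omega), mem_filter.2 ⟨mem_univ _, not_lt.1 hc⟩⟩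
  have h2 : 0 ≤ ∑ i ∈ range (tt N L j), lam * ff T m (H i) (w i) v / (1 - lam) ^ (i + 1) :=
    sum_nonneg fun i _ => div_nonneg (mul_nonneg R.hlam.le (R.ff_nn i v)) (R.gpow _).le
  have h3 := (abs_lt.1 h1).1
  linarith

lemma deg_lower_all {i : ℕ} (hi : i ≤ N) {v : V} (hv : v ∉ S1 X N L J d δ) :
    e * d / 2 ≤ deg (H i) v := by
  have h1 := R.deg_lower le_rfl hv
  rw [R.tt_J] at h1
  have h2 : (deg (H N) v : ℝ) ≤ deg (H i) v := by exact_mod_cast deg_mono (R.anti hi) v
  have h3 := R.hγ N le_rfl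
  have h4 : e * d / 2 ≤ (1 - lam) ^ N * ((1 - δ) * d) := by
    have h5 : e * ((1 / 2) * d) ≤ (1 - lam) ^ N * ((1 - δ) * d) := by
      apply mul_le_mul h3 _ (by positivity) (R.gpow _).le
      exact mul_le_mul_of_nonneg_right (by linarith [R.hδh]) R.dpos.le
    linarith
  linarith

/-- bound for the probability of losing both edges of a cherry, summed over its middle. -/
lemma both_sum {i : ℕ} (hi : i ≤ N) {u v : V} (huv : u ≠ v)
    (hu : u ∉ S3 G X N L J d δ δ2) :
    ∑ x ∈ nb (H i) u ∩ nb (H i) v, both T (w i) u v x / (2 * m) ≤ 4 * Δ / e + δ2 * d := by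
  have hm : (0 : ℝ) < m := by exact_mod_cast R.hm1
  have hd := R.dpos
  have he := R.he
  have h1 : ∀ x ∈ nb (H i) u ∩ nb (H i) v, both T (w i) u v x / (2 * m) ≤
      4 * Δ / (e * d) + if x ∈ S1 X N L J d δ then 1 else 0 := by
    intro x hx
    rw [mem_inter, mem_nb, mem_nb] at hx
    by_cases hxS : x ∈ S1 X N L J d δ
    · rw [if_pos hxS]
      have h2 : both T (w i) u v x / (2 * m) ≤ 1 := by
        rw [div_le_one (by positivity)]
        exact ((R.hw i).both_le_use u v x).trans ((R.hw i).edge u x hx.1)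
      have : (0 : ℝ) ≤ 4 * Δ / (e * d) := by positivity
      linarith
    · rw [if_neg hxS, add_zero]
      have h2 := (R.hw i).cherry u v x huv hx.1 hx.2
      have h3 := R.deg_lower_all hi hxS
      have h4 : e * d / 4 ≤ deg (H i) x - 1 := by linarith [R.hed]
      have h5 : (0 : ℝ) < e * d / 4 := by positivity
      calc both T (w i) u v x / (2 * m) ≤ (2 * m * Δ / (deg (H i) x - 1)) / (2 * m) :=
            div_le_div_of_nonneg_right h2 (by positivity)
        _ = Δ / (deg (H i) x - 1) := by field_simp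
        _ ≤ Δ / (e * d / 4) := div_le_div_of_nonneg_left (Nat.cast_nonneg _) h5 h4
        _ = 4 * Δ / (e * d) := by field_simp
  refine (sum_le_sum h1).trans ?_
  rw [sum_add_distrib, sum_const, nsmul_eq_mul, ← sum_filter, sum_const, nsmul_eq_mul, mul_one]
  have h6 : ((nb (H i) u ∩ nb (H i) v).card : ℝ) ≤ d := by
    have h7 : (nb (H i) u ∩ nb (H i) v).card ≤ deg (H i) u := card_le_card inter_subset_left
    have h8 : deg (H i) u ≤ deg G u := deg_mono (R.hHG i) u
    rw [R.hG] at h8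
    exact_mod_cast h7.trans h8
  have h9 : (((nb (H i) u ∩ nb (H i) v).filter fun x => x ∈ S1 X N L J d δ).card : ℝ) ≤
      δ2 * d := by
    have h10 : ((nb G u ∩ S1 X N L J d δ).card : ℝ) < δ2 * d := by
      by_contra hc
      exact hu (mem_filter.2 ⟨mem_univ _, not_lt.1 hc⟩)
    refine le_trans ?_ h10.le
    rw [Nat.cast_le]
    apply card_le_card
    intro x hx
    rw [mem_filter, mem_inter, mem_nb] at hx
    rw [mem_inter, mem_nb]
    exact ⟨R.hHG i hx.1.1, hx.2⟩
  have h11 : ((nb (H i) u ∩ nb (H i) v).card : ℝ) * (4 * Δ / (e * d)) ≤ 4 * Δ / e := by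
    calc ((nb (H i) u ∩ nb (H i) v).card : ℝ) * (4 * Δ / (e * d)) ≤ d * (4 * Δ / (e * d)) :=
          mul_le_mul_of_nonneg_right h6 (by positivity)
      _ = 4 * Δ / e := by field_simp
  linarith

/-- the compensator of the codegree. -/
lemma comp2 {j : ℕ} {u v : V} (huv : u ≠ v)
    (hu : u ∉ Bj T G P H w X Y m N L J d lam δ δ2 j)
    (hv : v ∉ Bj T G P H w X Y m N L J d lam δ δ2 j) :
    ∑ i ∈ range (tt N L j), lam * ff2 T m (H i) (w i) u v / ((1 - lam) ^ (i + 1)) ^ 2 ≤
      (2 * δ2 + s * δ2) / e ^ 2 * d + 4 * s * Δ / e ^ 3 := by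
  have he := R.he
  have hd := R.dpos
  have hu3 : u ∉ S3 G X N L J d δ δ2 := fun h => hu (by
    rw [Bj, B0]
    simp [h])
  have hsum : ∀ z : V, z ∉ Bj T G P H w X Y m N L J d lam δ δ2 j →
      ∑ i ∈ range (tt N L j), lam * ff T m (H i) (w i) z ≤ δ2 * d := by
    intro z hz
    by_contra hc
    apply hz
    rw [Bj, mem_union]
    exact Or.inr (mem_filter.2 ⟨mem_univ _, (not_le.1 hc).le⟩)
  have h1 : ∀ i ∈ range (tt N L j), lam * ff2 T m (H i) (w i) u v / ((1 - lam) ^ (i + 1)) ^ 2 ≤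
      (lam * ff T m (H i) (w i) u + lam * ff T m (H i) (w i) v +
        lam * (4 * Δ / e + δ2 * d)) / e ^ 2 := by
    intro i hi
    have hiN : i + 1 ≤ N := by
      have := mem_range.1 hi
      have := R.tt_le j
      omega
    have h2 : e ^ 2 ≤ ((1 - lam) ^ (i + 1)) ^ 2 := pow_le_pow_left₀ he.le (R.hγ _ hiN) 2
    have h3 : ff2 T m (H i) (w i) u v ≤ ff T m (H i) (w i) u + ff T m (H i) (w i) v +
        (4 * Δ / e + δ2 * d) := by
      have hb := R.both_sum (i := i) (by omega) huv hu3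
      rw [ff2, sum_add_distrib, sum_add_distrib]
      have hm : (0 : ℝ) < m := by exact_mod_cast R.hm1
      have ha : ∀ z : V, ∀ S : Finset V, S ⊆ nb (H i) z →
          ∑ x ∈ S, (1 - use T (w i) z x / (2 * m)) ≤ ff T m (H i) (w i) z := by
        intro z S hS
        apply sum_le_sum_of_subset_of_nonneg hS
        intro x hx _
        rw [sub_nonneg, div_le_one (by positivity)]
        exact (R.hw i).edge z x (mem_nb.1 hx)
      have := ha u (nb (H i) u ∩ nb (H i) v) inter_subset_left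
      have := ha v (nb (H i) u ∩ nb (H i) v) inter_subset_right
      linarith
    have h4 : lam * ff2 T m (H i) (w i) u v ≤ lam * ff T m (H i) (w i) u +
        lam * ff T m (H i) (w i) v + lam * (4 * Δ / e + δ2 * d) := by
      have := mul_le_mul_of_nonneg_left h3 R.hlam.le
      linarith
    calc lam * ff2 T m (H i) (w i) u v / ((1 - lam) ^ (i + 1)) ^ 2
        ≤ lam * ff2 T m (H i) (w i) u v / e ^ 2 :=
          div_le_div_of_nonneg_left (mul_nonneg R.hlam.le (R.ff2_nn i u v)) (by positivity) h2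
      _ ≤ _ := div_le_div_of_nonneg_right h4 (by positivity)
  refine (sum_le_sum h1).trans ?_
  rw [← sum_div, sum_add_distrib, sum_add_distrib, sum_const, card_range, nsmul_eq_mul]
  have h5 := hsum u hu
  have h6 := hsum v hv
  have h7 : (tt N L j : ℝ) * (lam * (4 * Δ / e + δ2 * d)) ≤ s * (4 * Δ / e + δ2 * d) := by
    have h8 : (tt N L j : ℝ) ≤ N := by exact_mod_cast R.tt_le j
    have h9 : (tt N L j : ℝ) * lam ≤ s := by
      have := mul_le_mul_of_nonneg_right h8 R.hlam.le
      linarith [R.hs]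
    have h10 : (0 : ℝ) ≤ 4 * Δ / e + δ2 * d := by
      have := R.hδ2
      positivity
    calc (tt N L j : ℝ) * (lam * (4 * Δ / e + δ2 * d)) =
          ((tt N L j : ℝ) * lam) * (4 * Δ / e + δ2 * d) := by ring
      _ ≤ _ := mul_le_mul_of_nonneg_right h9 h10
  have h11 : (2 * δ2 + s * δ2) / e ^ 2 * d + 4 * s * Δ / e ^ 3 =
      (δ2 * d + δ2 * d + s * (4 * Δ / e + δ2 * d)) / e ^ 2 := by
    field_simp
    ring
  rw [h11]
  apply div_le_div_of_nonneg_right _ (by positivity)
  linarith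

/-- the hypothesis of the static theorem holds during the `j`-th epoch with bad set `B_j`. -/
lemma good {i j : ℕ} (hj : j + 1 ≤ J) (h1 : tt N L j ≤ i) (h2 : i < tt N L (j + 1)) :
    Good (H i) d ((1 - lam) ^ i) α (Bj T G P H w X Y m N L J d lam δ δ2 j) := by
  have hd := R.dpos
  have he := R.he
  constructor
  · intro v hv
    have hv1 : v ∉ S1 X N L J d δ := fun h => hv (by
      rw [Bj, B0]
      simp [h])
    have h3 := R.deg_lower hj hv1
    have h4 : (deg (H (tt N L (j + 1))) v : ℝ) ≤ deg (H i) v := by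
      exact_mod_cast deg_mono (R.anti h2.le) v
    have h5 : (1 - lam) ^ i * (1 - δ3) ≤ (1 - lam) ^ (tt N L (j + 1)) := by
      apply R.gL
      have := tt_succ_le N L j
      omega
    have h6 : (1 - lam) ^ i * (1 - δ3) * ((1 - δ) * d) ≤
        (1 - lam) ^ (tt N L (j + 1)) * ((1 - δ) * d) := by
      apply mul_le_mul_of_nonneg_right h5
      have := R.hδh
      apply mul_nonneg _ hd.le
      linarith
    have h7 : ((1 - lam) ^ i - α) * d ≤ (1 - lam) ^ i * (1 - δ3) * ((1 - δ) * d) := by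
      rw [← mul_assoc]
      apply mul_le_mul_of_nonneg_right _ hd.le
      have g1 := R.gpow1 i
      have g0 := R.gpow i
      have hα := R.hα1
      have hδ := R.hδ
      have hδ3 : 0 ≤ δ3 := le_trans (by have := R.hlam; positivity) R.hL'
      nlinarith [mul_nonneg hδ3 hδ.le, mul_nonneg g0.le (mul_nonneg hδ3 hδ.le),
        mul_nonneg (sub_nonneg.2 g1) (add_nonneg hδ.le hδ3)]
    linarith
  · intro u v huv hu hv
    have h3 : (codeg (H i) u v : ℝ) ≤ codeg (H (tt N L j)) u v := by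
      exact_mod_cast codeg_mono (R.anti h1) u v
    have hδ3 : 0 ≤ δ3 := le_trans (by have := R.hlam; positivity) R.hL'
    have hα0 : 0 ≤ α := le_trans (by linarith [R.hδ]) R.hα1
    by_cases hc : 0 < codeg G u v
    · have hY : Y (tt N L j) u v - d < δ * d := by
        by_contra hcon
        apply hv
        rw [Bj, B0, mem_union, mem_union, mem_union, S2, mem_biUnion]
        refine Or.inl (Or.inl (Or.inr ⟨j, mem_range.2 (by omega), ?_⟩))
        rw [mem_image]
        exact ⟨(u, v), mem_filter.2 ⟨R.hP u v huv hc, not_lt.1 hcon⟩, rfl⟩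
      have h4 := R.hcod (tt N L j) u v
      have h5 := R.comp2 huv hu hv
      set g := (1 - lam) ^ (tt N L j) with hg
      have hg0 : 0 < g := R.gpow _
      have hg1 : g ≤ 1 := R.gpow1 _
      have h6 : g * (1 - δ3) ≤ (1 - lam) ^ i := by
        apply R.gL
        have := tt_succ_le N L j
        omega
      have hi0 : 0 < (1 - lam) ^ i := R.gpow i
      have h7 : g ≤ (1 - lam) ^ i + δ3 := by nlinarith
      have h7' : (1 - lam) ^ i ≤ g := R.ganti h1
      have h8 : g ^ 2 ≤ ((1 - lam) ^ i) ^ 2 + 2 * δ3 := by nlinarith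
      have h9 : (codeg (H (tt N L j)) u v : ℝ) ≤ g ^ 2 * ((1 + δ) * d +
          ((2 * δ2 + s * δ2) / e ^ 2 * d + 4 * s * Δ / e ^ 3)) := by
        refine h4.trans (mul_le_mul_of_nonneg_left ?_ (sq_nonneg _))
        linarith
      have hg2 : g ^ 2 ≤ 1 := by nlinarith
      have hA : 0 ≤ (2 * δ2 + s * δ2) / e ^ 2 * d + 4 * s * Δ / e ^ 3 := by
        have := R.hδ2
        have := R.hs0
        positivity
      have hδd : 0 ≤ δ * d := mul_nonneg R.hδ.le hd.le
      have h10 : g ^ 2 * ((1 + δ) * d +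
          ((2 * δ2 + s * δ2) / e ^ 2 * d + 4 * s * Δ / e ^ 3)) ≤
          (((1 - lam) ^ i) ^ 2 + 2 * δ3) * d + δ * d +
            ((2 * δ2 + s * δ2) / e ^ 2 * d + 4 * s * Δ / e ^ 3) := by
        have e1 : g ^ 2 * ((1 + δ) * d +
          ((2 * δ2 + s * δ2) / e ^ 2 * d + 4 * s * Δ / e ^ 3)) = g ^ 2 * d + g ^ 2 * (δ * d) +
            g ^ 2 * ((2 * δ2 + s * δ2) / e ^ 2 * d + 4 * s * Δ / e ^ 3) := by ring
        rw [e1]
        have e2 := mul_le_mul_of_nonneg_right h8 hd.le
        have e3 := mul_le_mul_of_nonneg_right hg2 hδd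
        have e4 := mul_le_mul_of_nonneg_right hg2 hA
        linarith
      have h11 := mul_le_mul_of_nonneg_right R.hα2 hd.le
      have h12 : (2 * δ3 + δ + (2 * δ2 + s * δ2) / e ^ 2 + 4 * s * Δ / (e ^ 3 * d)) * d =
          2 * δ3 * d + δ * d + ((2 * δ2 + s * δ2) / e ^ 2 * d + 4 * s * Δ / e ^ 3) := by
        field_simp
        ring
      rw [h12] at h11
      linarith
    · have h4 : codeg (H i) u v = 0 := by
        have := codeg_mono (R.hHG i) u v
        omega
      rw [h4]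
      push_cast
      positivity

lemma Bj_mono {j j' : ℕ} (h : j ≤ j') :
    Bj T G P H w X Y m N L J d lam δ δ2 j ⊆ Bj T G P H w X Y m N L J d lam δ δ2 j' := by
  unfold Bj
  apply union_subset_union_right
  intro v hv
  rw [mem_filter] at hv ⊢
  refine ⟨mem_univ _, hv.2.trans ?_⟩
  apply sum_le_sum_of_subset_of_nonneg
  · intro i hi
    rw [mem_range] at hi ⊢
    exact hi.trans_le (tt_mono N L h)
  · intro i _ _
    exact mul_nonneg R.hlam.le (R.ff_nn i v)

lemma sum_ff {i j : ℕ} (hj : j + 1 ≤ J) (hi : i < tt N L (j + 1)) :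
    ∑ v : V, ff T m (H i) (w i) v ≤ Fintype.card V * d * Φ + (m + 1) * d *
      (Bj T G P H w X Y m N L J d lam δ δ2 j).card := by
  have hiN : i < N := hi.trans_le (R.tt_le _)
  have hLpos := R.hL
  set j' := i / L with hj'
  have h1 : j' * L ≤ i := Nat.div_mul_le_self i L
  have h2 : i < (j' + 1) * L := by
    have := Nat.lt_div_mul_add (a := i) hLpos
    rw [add_mul, one_mul]
    exact this
  have h3 : j' ≤ j := by
    have h4 : i < (j + 1) * L := hi.trans_le (min_le_left _ _)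
    have h5 : j' * L < (j + 1) * L := h1.trans_lt h4
    have := Nat.lt_of_mul_lt_mul_right h5
    omega
  have h4 : tt N L j' ≤ i := (min_le_left _ _).trans h1
  have h5 : i < tt N L (j' + 1) := lt_min h2 hiN
  have hgood := R.good (by omega) h4 h5
  have h6 := (R.hw i).static _ _ (R.hγ i hiN.le) (R.gpow1 i) hgood
  have h7 : ((Bj T G P H w X Y m N L J d lam δ δ2 j').card : ℝ) ≤
      (Bj T G P H w X Y m N L J d lam δ δ2 j).card := by
    exact_mod_cast card_le_card (R.Bj_mono h3)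
  refine h6.trans ?_
  have h8 : (0 : ℝ) ≤ (m + 1) * d := by positivity
  have := mul_le_mul_of_nonneg_left h7 h8
  linarith

/-- the recursion of the bad sets. -/
lemma card_Bj_succ {j : ℕ} (hj : j + 1 ≤ J) :
    ((Bj T G P H w X Y m N L J d lam δ δ2 (j + 1)).card : ℝ) ≤
      (B0 G P X Y N L J d δ δ2).card + s / δ2 * (Fintype.card V * Φ) +
      (2 * s * d / δ2) * (Bj T G P H w X Y m N L J d lam δ δ2 j).card := by
  have hd := R.dpos
  have hδ2 := R.hδ2
  set F : Finset V := univ.filter fun v =>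
    δ2 * d ≤ ∑ i ∈ range (tt N L (j + 1)), lam * ff T m (H i) (w i) v with hF
  have h1 : ((Bj T G P H w X Y m N L J d lam δ δ2 (j + 1)).card : ℝ) ≤
      (B0 G P X Y N L J d δ δ2).card + F.card := by
    exact_mod_cast card_union_le _ _
  have h2 : (F.card : ℝ) * (δ2 * d) ≤
      ∑ v : V, ∑ i ∈ range (tt N L (j + 1)), lam * ff T m (H i) (w i) v := by
    calc (F.card : ℝ) * (δ2 * d) = ∑ v ∈ F, δ2 * d := by rw [sum_const, nsmul_eq_mul]
      _ ≤ ∑ v ∈ F, ∑ i ∈ range (tt N L (j + 1)), lam * ff T m (H i) (w i) v :=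
          sum_le_sum fun v hv => (mem_filter.1 hv).2
      _ ≤ _ := sum_le_sum_of_subset_of_nonneg (subset_univ _) fun v _ _ =>
          sum_nonneg fun i _ => mul_nonneg R.hlam.le (R.ff_nn i v)
  set b : ℝ := ((Bj T G P H w X Y m N L J d lam δ δ2 j).card : ℝ) with hb
  have hb0 : 0 ≤ b := Nat.cast_nonneg _
  have h3 : ∑ v : V, ∑ i ∈ range (tt N L (j + 1)), lam * ff T m (H i) (w i) v ≤
      s * (Fintype.card V * d * Φ + (m + 1) * d * b) := by
    rw [sum_comm]
    have h4 : ∀ i ∈ range (tt N L (j + 1)), ∑ v : V, lam * ff T m (H i) (w i) v ≤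
        lam * (Fintype.card V * d * Φ + (m + 1) * d * b) := by
      intro i hi
      rw [← mul_sum]
      exact mul_le_mul_of_nonneg_left (R.sum_ff hj (mem_range.1 hi)) R.hlam.le
    refine (sum_le_sum h4).trans ?_
    rw [sum_const, card_range, nsmul_eq_mul, ← mul_assoc]
    apply mul_le_mul_of_nonneg_right
    · have h8 : (tt N L (j + 1) : ℝ) ≤ N := by exact_mod_cast R.tt_le (j + 1)
      have := mul_le_mul_of_nonneg_right h8 R.hlam.le
      linarith [R.hs]
    · have := R.hΦ
      positivity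
  have h5 : (F.card : ℝ) ≤ s / δ2 * (Fintype.card V * Φ) + (2 * s * d / δ2) * b := by
    have h6 : (F.card : ℝ) * (δ2 * d) ≤
        (s / δ2 * (Fintype.card V * Φ) + (2 * s * d / δ2) * b) * (δ2 * d) := by
      refine (h2.trans h3).trans ?_
      have e1 : (s / δ2 * (Fintype.card V * Φ) + (2 * s * d / δ2) * b) * (δ2 * d) =
          s * (Fintype.card V * d * Φ + 2 * d * d * b) := by
        field_simp
      rw [e1]
      apply mul_le_mul_of_nonneg_left _ R.hs0
      have h7 : ((m : ℝ) + 1) ≤ 2 * d := by exact_mod_cast R.hmd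
      have h8 : ((m : ℝ) + 1) * d * b ≤ 2 * d * d * b :=
        mul_le_mul_of_nonneg_right (mul_le_mul_of_nonneg_right h7 hd.le) hb0
      linarith
    exact le_of_mul_le_mul_right h6 (by positivity)
  linarith

lemma card_Bj {j : ℕ} (hj : j ≤ J) :
    ((Bj T G P H w X Y m N L J d lam δ δ2 j).card : ℝ) ≤
      ((B0 G P X Y N L J d δ δ2).card + s / δ2 * (Fintype.card V * Φ)) *
        (1 + 2 * s * d / δ2) ^ j := by
  have hd := R.dpos
  have hδ2 := R.hδ2
  have hs0 := R.hs0
  have hΦ := R.hΦ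
  set a : ℝ := ((B0 G P X Y N L J d δ δ2).card : ℝ) + s / δ2 * (Fintype.card V * Φ) with ha
  have ha0 : 0 ≤ a := by positivity
  set K : ℝ := 2 * s * d / δ2 with hK
  have hK0 : 0 ≤ K := by positivity
  induction j with
  | zero =>
      rw [pow_zero, mul_one]
      have : Bj T G P H w X Y m N L J d lam δ δ2 0 = B0 G P X Y N L J d δ δ2 := by
        unfold Bj
        have h0 : tt N L 0 = 0 := by simp [tt]
        rw [h0]
        simp only [range_zero, sum_empty]
        have : (univ.filter fun _ : V => δ2 * (d : ℝ) ≤ 0) = ∅ := by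
          apply filter_false_of_mem
          intro _ _
          have : 0 < δ2 * (d : ℝ) := by positivity
          linarith
        rw [this, union_empty]
      rw [this, ha]
      have : 0 ≤ s / δ2 * (Fintype.card V * Φ) := by positivity
      linarith
  | succ j ih =>
      have h1 := R.card_Bj_succ hj
      have h2 := mul_le_mul_of_nonneg_left (ih (by omega)) hK0
      have h3 : a ≤ a * (1 + K) ^ j := by
        have : 1 ≤ (1 + K) ^ j := one_le_pow₀ (by linarith)
        exact le_mul_of_one_le_right ha0 this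
      rw [pow_succ]
      calc _ ≤ a + K * (a * (1 + K) ^ j) := by linarith
        _ ≤ a * (1 + K) ^ j + K * (a * (1 + K) ^ j) := by linarith
        _ = _ := by ring

lemma card_S1 : ((S1 X N L J d δ).card : ℝ) ≤ (J + 1) * β := by
  have h1 : ((S1 X N L J d δ).card : ℝ) ≤ ∑ j ∈ range (J + 1),
      ((univ.filter fun v => δ * d ≤ |X (tt N L j) v - d|).card : ℝ) := by
    exact_mod_cast card_biUnion_le
  refine h1.trans ?_
  calc _ ≤ ∑ j ∈ range (J + 1), β := sum_le_sum fun j hj =>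
        R.hβ1 j (by have := mem_range.1 hj; omega)
    _ = _ := by rw [sum_const, card_range, nsmul_eq_mul]; push_cast; ring

lemma card_S2 : ((S2 P Y N L J d δ).card : ℝ) ≤ (J + 1) * β := by
  have h1 : ((S2 P Y N L J d δ).card : ℝ) ≤ ∑ j ∈ range (J + 1),
      (((P.filter fun p => δ * d ≤ Y (tt N L j) p.1 p.2 - d).image Prod.snd).card : ℝ) := by
    exact_mod_cast card_biUnion_le
  refine h1.trans ?_
  calc _ ≤ ∑ j ∈ range (J + 1), β := by
        apply sum_le_sum
        intro j hj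
        refine le_trans ?_ (R.hβ2 j (by have := mem_range.1 hj; omega))
        exact_mod_cast card_image_le
    _ = _ := by rw [sum_const, card_range, nsmul_eq_mul]; push_cast; ring

lemma card_S3 : ((S3 G X N L J d δ δ2).card : ℝ) ≤ (J + 1) * β / δ2 := by
  have hd := R.dpos
  have hδ2 := R.hδ2
  have h1 : ((S3 G X N L J d δ δ2).card : ℝ) * (δ2 * d) ≤
      ∑ u : V, ((nb G u ∩ S1 X N L J d δ).card : ℝ) := by
    calc ((S3 G X N L J d δ δ2).card : ℝ) * (δ2 * d) = ∑ u ∈ S3 G X N L J d δ δ2, δ2 * d := by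
          rw [sum_const, nsmul_eq_mul]
      _ ≤ ∑ u ∈ S3 G X N L J d δ δ2, ((nb G u ∩ S1 X N L J d δ).card : ℝ) :=
          sum_le_sum fun v hv => (mem_filter.1 hv).2
      _ ≤ _ := sum_le_sum_of_subset_of_nonneg (subset_univ _) fun v _ _ => Nat.cast_nonneg _
  have h2 : ∑ u : V, ((nb G u ∩ S1 X N L J d δ).card : ℝ) = (S1 X N L J d δ).card * d := by
    have e1 : ∀ u : V, ((nb G u ∩ S1 X N L J d δ).card : ℝ) =
        ∑ x ∈ S1 X N L J d δ, if G.Adj u x then 1 else 0 := by
      intro u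
      rw [← sum_filter, sum_const, nsmul_eq_mul, mul_one]
      congr 2
      ext x
      rw [mem_inter, mem_filter, mem_nb]
      tauto
    rw [sum_congr rfl fun u _ => e1 u, sum_comm]
    have e2 : ∀ x : V, (∑ u : V, if G.Adj u x then (1 : ℝ) else 0) = d := by
      intro x
      rw [← sum_filter, sum_const, nsmul_eq_mul, mul_one]
      have : (univ.filter fun u => G.Adj u x) = nb G x := by
        ext u
        rw [mem_filter, mem_nb, G.adj_comm]
        simp
      rw [this]
      have := R.hG x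
      rw [deg] at this
      rw [this]
    rw [sum_congr rfl fun x _ => e2 x, sum_const, nsmul_eq_mul]
  rw [h2] at h1
  have h3 := R.card_S1
  rw [le_div_iff₀ hδ2]
  have h4 : ((S3 G X N L J d δ δ2).card : ℝ) * δ2 * d ≤ (S1 X N L J d δ).card * d := by linarith
  have h5 := le_of_mul_le_mul_right h4 hd
  linarith

/-- **The bound for the remaining edges.** -/
theorem final : ∑ v : V, (deg (H N) v : ℝ) ≤
    Fintype.card V * d * ((1 - lam) ^ N * (1 + δ) + δ2) +
    d * (((J + 1) * β * (2 + 1 / δ2) + s / δ2 * (Fintype.card V * Φ)) *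
      (1 + 2 * s * d / δ2) ^ J) := by
  have hd := R.dpos
  have hδ2 := R.hδ2
  have hs0 := R.hs0
  have hΦ := R.hΦ
  set B := Bj T G P H w X Y m N L J d lam δ δ2 J with hB
  have h1 : (B.card : ℝ) ≤ ((J + 1) * β * (2 + 1 / δ2) + s / δ2 * (Fintype.card V * Φ)) *
      (1 + 2 * s * d / δ2) ^ J := by
    refine (R.card_Bj le_rfl).trans ?_
    apply mul_le_mul_of_nonneg_right _ (by positivity)
    have h2 : ((B0 G P X Y N L J d δ δ2).card : ℝ) ≤ (S1 X N L J d δ).card +
        (S2 P Y N L J d δ).card + (S3 G X N L J d δ δ2).card := by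
      have h3 := card_union_le (S1 X N L J d δ ∪ S2 P Y N L J d δ) (S3 G X N L J d δ δ2)
      have h4 := card_union_le (S1 X N L J d δ) (S2 P Y N L J d δ)
      rw [B0]
      exact_mod_cast (by omega)
    have h5 := R.card_S1
    have h6 := R.card_S2
    have h7 := R.card_S3
    have h8 : (J + 1) * β * (2 + 1 / δ2) = (J + 1) * β + (J + 1) * β + (J + 1) * β / δ2 := by
      field_simp
      ring
    rw [h8]
    linarith
  have h2 : ∀ v : V, (deg (H N) v : ℝ) ≤ d * ((1 - lam) ^ N * (1 + δ) + δ2) +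
      if v ∈ B then (d : ℝ) else 0 := by
    intro v
    have hdeg : (deg (H N) v : ℝ) ≤ d := by
      have := deg_mono (R.hHG N) v
      rw [R.hG] at this
      exact_mod_cast this
    have hpos : 0 ≤ (d : ℝ) * ((1 - lam) ^ N * (1 + δ) + δ2) := by
      have := R.gpow N
      have := R.hδ
      positivity
    by_cases hv : v ∈ B
    · rw [if_pos hv]
      linarith
    · rw [if_neg hv, add_zero, R.hdeg]
      have hv1 : v ∉ S1 X N L J d δ := fun h => hv (by
        rw [hB, Bj, B0]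
        simp [h])
      have h3 : |X N v - d| < δ * d := by
        by_contra hc
        apply hv1
        rw [S1, mem_biUnion]
        refine ⟨J, mem_range.2 (by omega), mem_filter.2 ⟨mem_univ _, ?_⟩⟩
        rw [R.tt_J]
        exact not_lt.1 hc
      have h4 : ∑ i ∈ range N, lam * ff T m (H i) (w i) v ≤ δ2 * d := by
        by_contra hc
        apply hv
        rw [hB, Bj, mem_union]
        refine Or.inr (mem_filter.2 ⟨mem_univ _, ?_⟩)
        rw [R.tt_J]
        exact (not_le.1 hc).le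
      have h5 : (1 - lam) ^ N * ∑ i ∈ range N, lam * ff T m (H i) (w i) v / (1 - lam) ^ (i + 1) ≤
          ∑ i ∈ range N, lam * ff T m (H i) (w i) v := by
        rw [mul_sum]
        apply sum_le_sum
        intro i hi
        have hi' : i + 1 ≤ N := by
          have := mem_range.1 hi
          omega
        have h6 := R.ganti hi'
        have h7 := R.gpow (i + 1)
        have h8 : 0 ≤ lam * ff T m (H i) (w i) v := mul_nonneg R.hlam.le (R.ff_nn i v)
        rw [mul_div_assoc', div_le_iff₀ h7, mul_comm]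
        exact mul_le_mul_of_nonneg_left h6 h8
      have h9 := (abs_lt.1 h3).2
      have h10 : (1 - lam) ^ N * X N v ≤ (1 - lam) ^ N * ((1 + δ) * d) :=
        mul_le_mul_of_nonneg_left (by linarith) (R.gpow N).le
      rw [mul_add]
      linarith
  refine (sum_le_sum fun v _ => h2 v).trans ?_
  rw [sum_add_distrib, sum_const, card_univ, nsmul_eq_mul, ← sum_filter, sum_const, nsmul_eq_mul,
    filter_mem_eq_inter, univ_inter]
  have := mul_le_mul_of_nonneg_right h1 hd.le
  linarith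

end Run

end bad

end Pool.Agent.Lib.GHApprox
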