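import Pool.Agent.Lib.GHApprox.DynFinal

set_option autoImplicit false

/-!
Dynamic part, step 6: the theorem for one instance, with explicit constants.
-/

namespace Pool.Agent.Lib.GHApprox

open Finset Classical

theorem core {U V : Type} [Fintype U] [Fintype V] {T : SimpleGraph U} {G : SimpleGraph V}
    {m Δ d J : ℕ} {e α Φ s δ δ2 δ3 : ℝ}
    (hT : T.edgeSet.ncard = m) (hm1 : 1 ≤ m) (hΔ : ∀ u, deg T u ≤ Δ) (hΔ1 : 1 ≤ Δ)
    (hG : ∀ v, deg G v = d) (hn : 0 < Fintype.card V) (hd : 0 < d) (hmd : m ≤ d)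
    (W : SimpleGraph V → (U → V) → ℝ)
    (hW : ∀ H : SimpleGraph V, H ≤ G → IsWeight T H m Δ d e α Φ (W H))
    (he : 0 < e) (he1 : e ≤ 1) (hs : s = Real.log (1 / e)) (hs1 : 1 ≤ s) (hΦ : 0 ≤ Φ)
    (hδ : 0 < δ) (hδh : δ ≤ 1 / 2) (hδ2 : 0 < δ2) (hδ30 : 0 < δ3) (hδ3 : δ3 ≤ 1)
    (hJ : 2 * s / δ3 ≤ J)
    (hlam1 : 2 * m / (Fintype.card V * d) ≤ δ3)
    (hlam2 : 2 * m / (Fintype.card V * d) ≤ (1 / 2 : ℝ))
    (hed : 4 ≤ e * d) (hα1 : δ + δ3 ≤ α)
    (hα2 : 2 * δ3 + δ + (2 * δ2 + s * δ2) / e ^ 2 + 4 * s * Δ / (e ^ 3 * d) ≤ α) :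
    ∃ (k : ℕ) (f : Fin k → (U → V)), (∀ i, IsCopy T G (f i)) ∧
      (∀ i j, i ≠ j → ∀ x y, Hit T (f i) x y → ¬ Hit T (f j) x y) ∧
      (Fintype.card V * d : ℝ) ≤ 2 * m * k + Fintype.card V * d * (2 * e * (1 + δ) + δ2) +
        d * (((J + 1) * (Fintype.card V * (2 + d ^ 2) *
            Real.exp (-(δ ^ 2 * e ^ 4 * d / (16 * Δ * s)))) * (2 + 1 / δ2) +
            s / δ2 * (Fintype.card V * Φ)) * (1 + 2 * s * d / δ2) ^ J) := by
  set lam : ℝ := 2 * m / (Fintype.card V * d) with hlam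
  have hm : (0 : ℝ) < m := by exact_mod_cast hm1
  have hdR : (0 : ℝ) < d := by exact_mod_cast hd
  have hnR : (0 : ℝ) < Fintype.card V := by exact_mod_cast hn
  have hΔR : (0 : ℝ) < Δ := by exact_mod_cast hΔ1
  have hlam0 : 0 < lam := by positivity
  have hlamlt : lam < 1 := by linarith
  have hs0 : 0 < s := by linarith
  have hg0 : 0 < 1 - lam := by linarith
  -- the number of steps
  have hex : ∃ k, (1 - lam) ^ (k + 1) < e := by
    obtain ⟨k, hk⟩ := exists_pow_lt_of_lt_one he (show 1 - lam < 1 by linarith)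
    exact ⟨k, lt_of_le_of_lt (pow_le_pow_of_le_one hg0.le (by linarith) (Nat.le_succ k)) hk⟩
  set N := Nat.find hex with hN
  have hN1 : (1 - lam) ^ (N + 1) < e := Nat.find_spec hex
  have hγ : ∀ k ≤ N, e ≤ (1 - lam) ^ k := by
    intro k hk
    cases k with
    | zero => simpa using he1
    | succ k =>
        have := Nat.find_min hex (show k < Nat.find hex by omega)
        exact not_lt.1 this
  have hγN : (1 - lam) ^ N ≤ 2 * e := by
    rw [pow_succ] at hN1
    have h0 : 0 < (1 - lam) ^ N := pow_pos hg0 N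
    nlinarith
  have hsN : lam * N ≤ s := by
    have h1 : e ≤ Real.exp (-lam) ^ N :=
      (hγ N le_rfl).trans (pow_le_pow_left₀ hg0.le (Real.one_sub_le_exp_neg lam) N)
    rw [← Real.exp_nat_mul] at h1
    have h2 := (Real.log_le_log he h1)
    rw [Real.log_exp] at h2
    rw [hs, one_div, Real.log_inv]
    linarith
  -- the length of an epoch
  set L : ℕ := ⌊δ3 / lam⌋₊ with hL
  have hx1 : 1 ≤ δ3 / lam := by
    rw [le_div_iff₀ hlam0]
    linarith
  have hL1 : 1 ≤ L := by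
    rw [hL]
    exact Nat.le_floor (by simpa using hx1)
  have hL2 : lam * L ≤ δ3 := by
    have := Nat.floor_le (show 0 ≤ δ3 / lam by positivity)
    rw [← hL, le_div_iff₀ hlam0] at this
    linarith
  have hL3 : δ3 / (2 * lam) ≤ L := by
    have h1 := Nat.lt_floor_add_one (δ3 / lam)
    rw [← hL] at h1
    have h2 : (1 : ℝ) ≤ L := by exact_mod_cast hL1
    have h3 : δ3 / (2 * lam) = (δ3 / lam) / 2 := by
      field_simp
    rw [h3]
    linarith
  have hNJ : N ≤ J * L := by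
    have h1 : (N : ℝ) ≤ s / lam := by
      rw [le_div_iff₀ hlam0]
      linarith
    have h2 : s / lam = (2 * s / δ3) * (δ3 / (2 * lam)) := by
      field_simp
    have h3 : (2 * s / δ3) * (δ3 / (2 * lam)) ≤ J * L :=
      mul_le_mul hJ hL3 (by positivity) (Nat.cast_nonneg _)
    have h4 : (N : ℝ) ≤ ((J * L : ℕ) : ℝ) := by
      push_cast
      linarith
    exact_mod_cast h4
  -- the potential
  set κ : ℝ := δ * e ^ 4 / (8 * Δ * s) with hκ
  have hκ0 : 0 ≤ κ := by positivity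
  set ρ : ℝ := (κ / e ^ 2) ^ 2 * (2 * Δ) * (2 * (lam * d)) with hρ
  have hρ0 : 0 ≤ ρ := by positivity
  have h1 : κ / e ^ 2 * (2 * Δ) ≤ 1 := by
    have : κ / e ^ 2 * (2 * Δ) = δ * e ^ 2 / (4 * s) := by
      rw [hκ]
      field_simp
      ring
    rw [this, div_le_one (by positivity)]
    have : e ^ 2 ≤ 1 := pow_le_one₀ he.le he1
    nlinarith
  obtain ⟨H, o, X, Y, hH0, hHs, hcopy, hHG, hdeg, hcod, hpot⟩ :=
    exists_run hT hm1 hΔ hG hn hd W hW hlam hlamlt (PP G) he hγ hκ0 h1 le_rfl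
  have hcardP : ((PP G).card : ℝ) ≤ Fintype.card V * d ^ 2 := by
    exact_mod_cast card_PP hG
  have hexp : ∀ k ≤ N, Pot (PP G) κ d (X k) (Y k) ≤
      Fintype.card V * (2 + d ^ 2) * Real.exp (κ * (δ * d) / 2) := by
    intro k hk
    refine (hpot k hk).trans ?_
    apply mul_le_mul _ _ (by positivity) (by positivity)
    · linarith
    · have h2 : (1 + ρ) ^ k ≤ Real.exp (ρ * k) := by
        have := pow_le_pow_left₀ (by linarith) (Real.add_one_le_exp ρ) k
        rw [← Real.exp_nat_mul] at this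
        rw [add_comm, mul_comm ρ]
        exact this
      refine h2.trans (Real.exp_le_exp.2 ?_)
      have h3 : (k : ℝ) ≤ N := by exact_mod_cast hk
      have h4 : ρ * k ≤ (κ / e ^ 2) ^ 2 * (2 * Δ) * (2 * d) * s := by
        have h5 : lam * k ≤ s := (mul_le_mul_of_nonneg_left h3 hlam0.le).trans hsN
        calc ρ * k = (κ / e ^ 2) ^ 2 * (2 * Δ) * (2 * d) * (lam * k) := by rw [hρ]; ring
          _ ≤ _ := mul_le_mul_of_nonneg_left h5 (by positivity)
      refine h4.trans (le_of_eq ?_)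
      rw [hκ]
      field_simp
      ring
  set β : ℝ := Fintype.card V * (2 + d ^ 2) * Real.exp (-(δ ^ 2 * e ^ 4 * d / (16 * Δ * s)))
    with hβ
  have hβ' : ∀ a : ℝ, a * Real.exp (κ * (δ * d)) ≤
      Fintype.card V * (2 + d ^ 2) * Real.exp (κ * (δ * d) / 2) → a ≤ β := by
    intro a ha
    have h2 : κ * (δ * d) / 2 = δ ^ 2 * e ^ 4 * d / (16 * Δ * s) := by
      rw [hκ]
      field_simp
      ring
    have h3 : Real.exp (κ * (δ * d) / 2) =
        Real.exp (-(δ ^ 2 * e ^ 4 * d / (16 * Δ * s))) * Real.exp (κ * (δ * d)) := by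
      rw [← Real.exp_add]
      congr 1
      rw [← h2]
      ring
    have ha' : a * Real.exp (κ * (δ * d)) ≤ β * Real.exp (κ * (δ * d)) := by
      refine ha.trans (le_of_eq ?_)
      rw [h3, hβ]
      ring
    exact le_of_mul_le_mul_right ha' (Real.exp_pos _)
  have R : Run T G (PP G) m Δ d N L J e α Φ lam s δ δ2 δ3 β H (fun k => W (H k)) X Y :=
    { hm1 := hm1
      hd := hd
      hmd := by omega
      hG := hG
      hlam := hlam0
      hlam1 := hlamlt
      he := he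
      he1 := he1
      hγ := hγ
      hs0 := hs0.le
      hs := hsN
      hL := hL1
      hL' := hL2
      hJ := hNJ
      hw := fun k => hW (H k) (hHG k)
      hanti := fun k => (hHs k) ▸ remO_le T (H k) (o k)
      hHG := hHG
      hdeg := hdeg
      hcod := hcod
      hP := fun u v _ hc => mem_filter.2 ⟨mem_univ _, hc⟩
      hβ1 := fun j _ => hβ' _ (count1 hκ0 (hexp _ (min_le_right _ _)))
      hβ2 := fun j _ => hβ' _ (count2 hκ0 (hexp _ (min_le_right _ _)))
      hΦ := hΦ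
      hδ := hδ
      hδh := hδh
      hδ2 := hδ2
      hδ3 := hδ3
      hed := hed
      hα1 := hα1
      hα2 := hα2 }
  have hfin := R.final
  obtain ⟨K, f, hf1, hf2, hf3⟩ := collect hT hHs hcopy N
  refine ⟨K, f, fun i => (hH0 ▸ hf1 i), hf2, ?_⟩
  have h5 : ((∑ v : V, deg (H 0) v : ℕ) : ℝ) = Fintype.card V * d := by
    rw [hH0, sum_congr rfl fun v _ => hG v, sum_const, card_univ, smul_eq_mul]
    push_cast
    rfl
  have h6 : (Fintype.card V * d : ℝ) = ∑ v : V, (deg (H N) v : ℝ) + 2 * m * K := by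
    rw [← h5, hf3]
    push_cast
    rfl
  rw [h6]
  rw [h6] at hfin
  have h7 : (∑ v : V, (deg (H N) v : ℝ) + 2 * m * K) * ((1 - lam) ^ N * (1 + δ) + δ2) ≤
      (∑ v : V, (deg (H N) v : ℝ) + 2 * m * K) * (2 * e * (1 + δ) + δ2) := by
    apply mul_le_mul_of_nonneg_left
    · have := mul_le_mul_of_nonneg_right hγN (show 0 ≤ 1 + δ by linarith)
      linarith
    · positivity
  linarith

end Pool.Agent.Lib.GHApprox
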