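import Mathlib

set_option autoImplicit false

/-!
Approximate Graham-Haggkvist theorem (helper37's plan, note `gh_approx_helper37.md`): the abstract
interface between the static part (a measure on the copies of the tree in every subgraph) and the
dynamic part (nibble by deterministic choice along a potential), and the two statements
`StaticThm`, `MainThm`.
-/

namespace Pool.Agent.Lib.GHApprox

open Finset Classical

section defs

variable {U V : Type} [Fintype U] [Fintype V]

/-- neighbours of `v`. -/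
noncomputable def nb (H : SimpleGraph V) (v : V) : Finset V := univ.filter (fun x => H.Adj v x)

/-- degree. -/
noncomputable def deg (H : SimpleGraph V) (v : V) : ℕ := (nb H v).card

/-- codegree. -/
noncomputable def codeg (H : SimpleGraph V) (u v : V) : ℕ := (nb H u ∩ nb H v).card

/-- `φ` is an injective homomorphism. -/
def IsCopy (T : SimpleGraph U) (H : SimpleGraph V) (φ : U → V) : Prop :=
  Function.Injective φ ∧ ∀ a b, T.Adj a b → H.Adj (φ a) (φ b)

/-- the oriented edge `(z, y)` belongs to the image of `T`. -/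
def Hit (T : SimpleGraph U) (φ : U → V) (z y : V) : Prop := ∃ a b, T.Adj a b ∧ φ a = z ∧ φ b = y

/-- total weight of the copies through the oriented edge `(z, y)`. -/
noncomputable def use (T : SimpleGraph U) (w : (U → V) → ℝ) (z y : V) : ℝ :=
  ∑ φ : U → V, if Hit T φ z y then w φ else 0

/-- total weight of the copies through both `ux` and `vx`. -/
noncomputable def both (T : SimpleGraph U) (w : (U → V) → ℝ) (u v x : V) : ℝ :=
  ∑ φ : U → V, if Hit T φ u x ∧ Hit T φ v x then w φ else 0

/-- the hypothesis of the static theorem on a subgraph `H`: apart from the vertices of `B` all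
degrees are at least `(γ - α) d` and all codegrees are at most `(γ² + α) d`. -/
def Good (H : SimpleGraph V) (d : ℕ) (γ α : ℝ) (B : Finset V) : Prop :=
  (∀ v, v ∉ B → (γ - α) * d ≤ deg H v) ∧
  (∀ u v, u ≠ v → u ∉ B → v ∉ B → (codeg H u v : ℝ) ≤ (γ ^ 2 + α) * d)

/-- `w` is a weight function on the copies of `T` in `H` with the properties proved in the static
part (`m` edges, all degrees of `T` at most `Δ`, all degrees of `H` at most `d`). -/
structure IsWeight (T : SimpleGraph U) (H : SimpleGraph V) (m Δ d : ℕ) (ε α Φ : ℝ)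
    (w : (U → V) → ℝ) : Prop where
  nonneg : ∀ φ, 0 ≤ w φ
  supp : ∀ φ, w φ ≠ 0 → IsCopy T H φ
  edge : ∀ z y, H.Adj z y → use T w z y ≤ 2 * m
  cherry : ∀ u v x, u ≠ v → H.Adj u x → H.Adj v x →
    both T w u v x ≤ 2 * m * Δ / (deg H x - 1)
  static : ∀ (γ : ℝ) (B : Finset V), ε ≤ γ → γ ≤ 1 → Good H d γ α B →
    ∑ z : V, ∑ y ∈ nb H z, (1 - use T w z y / (2 * m)) ≤
      Fintype.card V * d * Φ + (m + 1) * d * B.card

end defs

/-- **The static theorem** (the measure). -/
def StaticThm : Prop :=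
  ∀ ε η : ℝ, 0 < ε → 0 < η → ∃ α : ℝ, 0 < α ∧ ∀ P : ℕ, ∃ c : ℝ, 0 < c ∧
    ∀ (U : Type) [Fintype U] (T : SimpleGraph U) (m Δ d : ℕ), T.IsTree →
      T.edgeSet.ncard = m → 1 ≤ m → (∀ u, deg T u ≤ Δ) → (1 + η) * m ≤ d →
      Δ * Real.log (d + 1) ≤ c * d →
      ∀ (V : Type) [Fintype V] (H : SimpleGraph V), (∀ v, deg H v ≤ d) →
        ∃ w : (U → V) → ℝ, IsWeight T H m Δ d ε α (((d : ℝ) + 1) ^ P)⁻¹ w

/-- **The approximate Graham-Haggkvist theorem** for all regular hosts. -/
def MainThm : Prop :=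
  ∀ ε η : ℝ, 0 < ε → 0 < η → ∃ c : ℝ, 0 < c ∧
    ∀ (U : Type) [Fintype U] (T : SimpleGraph U) (m Δ d : ℕ), T.IsTree →
      T.edgeSet.ncard = m → 1 ≤ m → (∀ u, deg T u ≤ Δ) → (1 + η) * m ≤ d →
      Δ * Real.log (d + 1) ≤ c * d →
      ∀ (V : Type) [Fintype V] (G : SimpleGraph V), (∀ v, deg G v = d) →
        ∃ (k : ℕ) (f : Fin k → (U → V)), (∀ i, IsCopy T G (f i)) ∧
          (∀ i j, i ≠ j → ∀ x y, Hit T (f i) x y → ¬ Hit T (f j) x y) ∧
          (1 - ε) * (Fintype.card V * d) ≤ 2 * m * k

end Pool.Agent.Lib.GHApprox
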