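import Pool.Agent.Lib.GHApprox.DynBad

set_option autoImplicit false

/-!
Dynamic part, step 5: collecting the copies, counting from the potential, choice of the constants:
`StaticThm → MainThm`.
-/

namespace Pool.Agent.Lib.GHApprox

open Finset Classical

section collect

variable {U V : Type} [Fintype U] [Fintype V]

lemma le_of_steps {T : SimpleGraph U} {H : ℕ → SimpleGraph V} {o : ℕ → Option (U → V)}
    (hH : ∀ k, H (k + 1) = remO T (H k) (o k)) {i k : ℕ} (h : i ≤ k) : H k ≤ H i :=
  antitone_nat_of_succ_le (f := H) (fun k => (hH k) ▸ remO_le T (H k) (o k)) h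

lemma collect {T : SimpleGraph U} {H : ℕ → SimpleGraph V} {o : ℕ → Option (U → V)} {m : ℕ}
    (hT : T.edgeSet.ncard = m)
    (hH : ∀ k, H (k + 1) = remO T (H k) (o k)) (ho : ∀ k φ, o k = some φ → IsCopy T (H k) φ)
    (N : ℕ) :
    ∃ (K : ℕ) (f : Fin K → (U → V)), (∀ i, IsCopy T (H 0) (f i)) ∧
      (∀ i j, i ≠ j → ∀ x y, Hit T (f i) x y → ¬ Hit T (f j) x y) ∧
      ∑ v : V, deg (H 0) v = ∑ v : V, deg (H N) v + 2 * m * K := by
  set S : Finset ℕ := (range N).filter fun k => (o k).isSome with hS
  have hsome : ∀ i : Fin S.card, (o (S.orderEmbOfFin rfl i)).isSome := by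
    have h2 : ∀ x ∈ S, (o x).isSome := by
      intro x hx
      rw [hS] at hx
      exact (mem_filter.1 hx).2
    intro i
    exact h2 _ (S.orderEmbOfFin_mem rfl i)
  refine ⟨S.card, fun i => (o (S.orderEmbOfFin rfl i)).get (hsome i), ?_, ?_, ?_⟩
  · intro i
    exact (ho _ _ (Option.some_get (hsome i)).symm).mono (le_of_steps hH (Nat.zero_le _))
  · -- disjointness: first for i < j
    have key : ∀ (a b : ℕ) (φ ψ : U → V), a < b → o a = some φ → o b = some ψ →
        ∀ x y, Hit T φ x y → ¬ Hit T ψ x y := by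
      intro a b φ ψ hab ha hb x y hx hy
      have h1 := (ho b ψ hb).adj hy
      have h2 : H b ≤ H (a + 1) := le_of_steps hH hab
      have h3 := h2 h1
      rw [hH a, ha] at h3
      exact h3.2 hx
    intro i j hij x y hx hy
    rcases lt_or_gt_of_ne hij with h | h
    · exact key _ _ _ _ ((S.orderEmbOfFin rfl).strictMono h) (Option.some_get (hsome i)).symm
        (Option.some_get (hsome j)).symm x y hx hy
    · exact key _ _ _ _ ((S.orderEmbOfFin rfl).strictMono h) (Option.some_get (hsome j)).symm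
        (Option.some_get (hsome i)).symm x y hy hx
  · rw [hS]
    clear hsome hS S
    induction N with
    | zero => simp
    | succ N ih =>
        rw [ih, range_add_one, filter_insert]
        cases hN : o N with
        | none => simp [hH N, hN, remO]
        | some φ =>
            have hc := ho N φ hN
            simp only [Option.isSome_some, if_true]
            rw [card_insert_of_notMem (by simp)]
            have h1 : ∑ v : V, deg (H N) v = ∑ v : V, deg (H (N + 1)) v + 2 * m := by
              rw [hH N, hN]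
              simp only [remO]
              rw [← hT, ← sum_hits hc.1, ← sum_add_distrib]
              exact sum_congr rfl fun v _ => (deg_remv hc v).symm
            rw [h1]
            ring

lemma count1 {P : Finset (V × V)} {κ a b C : ℝ} (hκ : 0 ≤ κ) {X : V → ℝ} {Y : V → V → ℝ}
    (h : Pot P κ a X Y ≤ C) :
    ((univ.filter fun v => b ≤ |X v - a|).card : ℝ) * Real.exp (κ * b) ≤ C := by
  refine le_trans ?_ h
  have h1 : ((univ.filter fun v => b ≤ |X v - a|).card : ℝ) * Real.exp (κ * b) =
      ∑ v ∈ univ.filter (fun v => b ≤ |X v - a|), Real.exp (κ * b) := by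
    rw [sum_const, nsmul_eq_mul]
  have h2 : ∑ v ∈ univ.filter (fun v => b ≤ |X v - a|), Real.exp (κ * b) ≤
      ∑ v ∈ univ.filter (fun v => b ≤ |X v - a|),
        (Real.exp (κ * (X v - a)) + Real.exp (-κ * (X v - a))) := by
    apply sum_le_sum
    intro v hv
    have hv' := (mem_filter.1 hv).2
    rcases le_abs.1 hv' with h3 | h3
    · have : Real.exp (κ * b) ≤ Real.exp (κ * (X v - a)) :=
        Real.exp_le_exp.2 (mul_le_mul_of_nonneg_left h3 hκ)
      have := Real.exp_nonneg (-κ * (X v - a))
      linarith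
    · have : Real.exp (κ * b) ≤ Real.exp (-κ * (X v - a)) := by
        apply Real.exp_le_exp.2
        have := mul_le_mul_of_nonneg_left h3 hκ
        linarith
      have := Real.exp_nonneg (κ * (X v - a))
      linarith
  have h3 : ∑ v ∈ univ.filter (fun v => b ≤ |X v - a|),
        (Real.exp (κ * (X v - a)) + Real.exp (-κ * (X v - a))) ≤
      ∑ v : V, (Real.exp (κ * (X v - a)) + Real.exp (-κ * (X v - a))) :=
    sum_le_sum_of_subset_of_nonneg (subset_univ _) fun v _ _ => by positivity
  have h4 : 0 ≤ ∑ p ∈ P, Real.exp (κ * (Y p.1 p.2 - a)) :=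
    sum_nonneg fun p _ => Real.exp_nonneg _
  rw [Pot]
  linarith

lemma count2 {P : Finset (V × V)} {κ a b C : ℝ} (hκ : 0 ≤ κ) {X : V → ℝ} {Y : V → V → ℝ}
    (h : Pot P κ a X Y ≤ C) :
    ((P.filter fun p => b ≤ Y p.1 p.2 - a).card : ℝ) * Real.exp (κ * b) ≤ C := by
  refine le_trans ?_ h
  have h1 : ((P.filter fun p => b ≤ Y p.1 p.2 - a).card : ℝ) * Real.exp (κ * b) =
      ∑ p ∈ P.filter (fun p => b ≤ Y p.1 p.2 - a), Real.exp (κ * b) := by
    rw [sum_const, nsmul_eq_mul]
  have h2 : ∑ p ∈ P.filter (fun p => b ≤ Y p.1 p.2 - a), Real.exp (κ * b) ≤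
      ∑ p ∈ P.filter (fun p => b ≤ Y p.1 p.2 - a), Real.exp (κ * (Y p.1 p.2 - a)) := by
    apply sum_le_sum
    intro p hp
    exact Real.exp_le_exp.2 (mul_le_mul_of_nonneg_left (mem_filter.1 hp).2 hκ)
  have h3 : ∑ p ∈ P.filter (fun p => b ≤ Y p.1 p.2 - a), Real.exp (κ * (Y p.1 p.2 - a)) ≤
      ∑ p ∈ P, Real.exp (κ * (Y p.1 p.2 - a)) :=
    sum_le_sum_of_subset_of_nonneg (filter_subset _ _) fun p _ _ => Real.exp_nonneg _
  have h4 : 0 ≤ ∑ v : V, (Real.exp (κ * (X v - a)) + Real.exp (-κ * (X v - a))) :=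
    sum_nonneg fun v _ => by positivity
  rw [Pot]
  linarith

/-- pairs with a common neighbour. -/
noncomputable def PP (G : SimpleGraph V) : Finset (V × V) :=
  univ.filter fun p => 0 < codeg G p.1 p.2

lemma card_PP {G : SimpleGraph V} {d : ℕ} (hG : ∀ v, deg G v = d) :
    (PP G).card ≤ Fintype.card V * d ^ 2 := by
  have h1 : (PP G).card ≤ ∑ p : V × V, codeg G p.1 p.2 := by
    rw [PP, card_filter]
    apply sum_le_sum
    intro p _
    split_ifs with h
    · exact h
    · exact Nat.zero_le _
  refine h1.trans (le_of_eq ?_)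
  rw [Fintype.sum_prod_type]
  have h2 : ∀ u v : V, codeg G u v = ∑ x : V, (if G.Adj u x then 1 else 0) *
      (if G.Adj v x then 1 else 0) := by
    intro u v
    rw [codeg, card_eq_sum_ones, ← sum_filter_add_sum_filter_not univ
      (fun x => x ∈ nb G u ∩ nb G v)]
    rw [sum_congr (g := fun _ => 1) (show univ.filter (fun x => x ∈ nb G u ∩ nb G v) =
      nb G u ∩ nb G v by ext; simp)]
    · have : ∑ x ∈ univ.filter (fun x => ¬ x ∈ nb G u ∩ nb G v),
          (if G.Adj u x then 1 else 0) * (if G.Adj v x then 1 else 0) = 0 := by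
        apply sum_eq_zero
        intro x hx
        rw [mem_filter, mem_inter, mem_nb, mem_nb] at hx
        by_cases h3 : G.Adj u x <;> by_cases h4 : G.Adj v x <;> simp_all
      rw [this, add_zero]
    · intro x hx
      rw [mem_inter, mem_nb, mem_nb] at hx
      simp [hx.1, hx.2]
  have h3 : ∀ x : V, ∑ u : V, (if G.Adj u x then 1 else 0) = d := by
    intro x
    rw [← hG x, deg, nb, card_filter]
    exact sum_congr rfl fun u _ => by simp only [G.adj_comm]
  calc ∑ u : V, ∑ v : V, codeg G u v =
      ∑ u : V, ∑ v : V, ∑ x : V, (if G.Adj u x then 1 else 0) * (if G.Adj v x then 1 else 0) :=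
        sum_congr rfl fun u _ => sum_congr rfl fun v _ => h2 u v
    _ = ∑ u : V, ∑ x : V, ∑ v : V, (if G.Adj u x then 1 else 0) * (if G.Adj v x then 1 else 0) :=
        sum_congr rfl fun u _ => sum_comm
    _ = ∑ x : V, ∑ u : V, ∑ v : V, (if G.Adj u x then 1 else 0) * (if G.Adj v x then 1 else 0) :=
        sum_comm
    _ = ∑ x : V, d * d := by
        apply sum_congr rfl
        intro x _
        calc ∑ u : V, ∑ v : V, (if G.Adj u x then 1 else 0) * (if G.Adj v x then 1 else 0) =
            ∑ u : V, (if G.Adj u x then 1 else 0) * ∑ v : V, (if G.Adj v x then 1 else 0) :=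
              sum_congr rfl fun u _ => (mul_sum _ _ _).symm
          _ = d * d := by rw [h3 x, ← sum_mul, h3 x]
    _ = _ := by rw [sum_const, card_univ, smul_eq_mul]; ring

end collect

end Pool.Agent.Lib.GHApprox
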