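import Pool.Agent.Lib.GHApprox.DynCore

set_option autoImplicit false

/-!
Dynamic part, step 7: `StaticThm → MainThm`.
-/

namespace Pool.Agent.Lib.GHApprox

open Finset Classical

/-- **The dynamic part.** -/
theorem dyn (hS : StaticThm) : MainThm := by
  intro ε η hε hη
  set e : ℝ := min ε 1 / 8 with he
  have hmin : 0 < min ε 1 := lt_min hε one_pos
  have he0 : 0 < e := by positivity
  have he8 : e ≤ 1 / 8 := by
    have := min_le_right ε 1
    rw [he]
    linarith
  have heε : 8 * e ≤ ε := by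
    have := min_le_left ε 1
    rw [he]
    linarith
  obtain ⟨α, hα, hstat⟩ := hS e η he0 hη
  set s : ℝ := Real.log (1 / e) with hs
  have hs1 : 1 ≤ s := by
    rw [hs, Real.le_log_iff_exp_le (by positivity)]
    have h1 := Real.exp_one_lt_d9
    have h2 : (8 : ℝ) ≤ 1 / e := by
      rw [le_div_iff₀ he0]
      linarith
    linarith
  have hs0 : 0 < s := by linarith
  set a : ℝ := min α 1 with ha
  have ha0 : 0 < a := lt_min hα one_pos
  have ha1 : a ≤ 1 := min_le_right _ _
  have haα : a ≤ α := min_le_left _ _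
  set δ3 : ℝ := a / 16 with hδ3
  have hδ30 : 0 < δ3 := by positivity
  set δ2 : ℝ := min (a * e ^ 2 / (8 * (2 + s))) e with hδ2
  have hδ20 : 0 < δ2 := lt_min (by positivity) he0
  have hδ2e : δ2 ≤ e := min_le_right _ _
  have hδ2a : δ2 ≤ a * e ^ 2 / (8 * (2 + s)) := min_le_left _ _
  set J : ℕ := ⌈2 * s / δ3⌉₊ with hJ
  have hJ1 : 2 * s / δ3 ≤ J := Nat.le_ceil _
  set C2 : ℝ := 1 + 2 * s / δ2 with hC2
  have hC20 : 0 < C2 := by positivity
  set C3 : ℝ := (2 * (J + 1) * (2 + 1 / δ2) + s / δ2) * C2 ^ J with hC3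
  have hC30 : 0 < C3 := by positivity
  obtain ⟨c1, hc1, hstat⟩ := hstat (J + 3)
  set c8 : ℝ := δ3 ^ 2 * e ^ 4 / (16 * s) with hc8
  have hc80 : 0 < c8 := by positivity
  set D0 : ℝ := C3 / e + 4 / e + 2 / δ3 + 4 with hD0
  have hD00 : 0 < D0 := by positivity
  have hp1 : 0 < C3 / e := by positivity
  have hp2 : 0 < 4 / e := by positivity
  have hp3 : 0 < 2 / δ3 := by positivity
  refine ⟨min c1 (min (c8 / (J + 3)) (min (a * e ^ 3 / (64 * s)) (1 / (2 * D0)))), ?_, ?_⟩
  · refine lt_min hc1 (lt_min (by positivity) (lt_min (by positivity) (by positivity)))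
  intro U _ T m Δ d hTree hT hm1 hΔ hηd hlog V _ G hG
  rcases Nat.eq_zero_or_pos (Fintype.card V) with hn | hn
  · refine ⟨0, fun i => i.elim0, fun i => i.elim0, fun i => i.elim0, ?_⟩
    rw [hn]
    simp
  -- small facts
  have hmR : (1 : ℝ) ≤ m := by exact_mod_cast hm1
  have hmd' : (m : ℝ) ≤ d := by nlinarith
  have hmd : m ≤ d := by exact_mod_cast hmd'
  have hd : 0 < d := by omega
  have hdR : (0 : ℝ) < d := by exact_mod_cast hd
  have hΔ1 : 1 ≤ Δ := by
    by_contra hc
    have h0 : Δ = 0 := by omega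
    have h1 := sum_deg T
    rw [sum_eq_zero (fun u _ => by have := hΔ u; omega), hT] at h1
    omega
  have hΔR : (1 : ℝ) ≤ Δ := by exact_mod_cast hΔ1
  have hlog2 : (1 : ℝ) / 2 ≤ Real.log (d + 1) := by
    have h1 := Real.log_two_gt_d9
    have h2 : Real.log 2 ≤ Real.log (d + 1) := by
      apply Real.log_le_log (by norm_num)
      have : (1 : ℝ) ≤ d := by exact_mod_cast hd
      linarith
    linarith
  have hc_le : ∀ c' : ℝ, min c1 (min (c8 / (J + 3)) (min (a * e ^ 3 / (64 * s)) (1 / (2 * D0)))) ≤ c' →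
      (Δ : ℝ) * Real.log (d + 1) ≤ c' * d := fun c' h =>
    hlog.trans (mul_le_mul_of_nonneg_right h hdR.le)
  have hl1 := hc_le c1 (min_le_left _ _)
  have hl2 := hc_le (c8 / (J + 3)) ((min_le_right _ _).trans (min_le_left _ _))
  have hl3 := hc_le (a * e ^ 3 / (64 * s))
    ((min_le_right _ _).trans ((min_le_right _ _).trans (min_le_left _ _)))
  have hl4 := hc_le (1 / (2 * D0))
    ((min_le_right _ _).trans ((min_le_right _ _).trans (min_le_right _ _)))
  have hDd : D0 ≤ d := by
    have h1 : Real.log (d + 1) ≤ Δ * Real.log (d + 1) :=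
      le_mul_of_one_le_left (by linarith) hΔR
    have h2 : 1 / 2 ≤ 1 / (2 * D0) * d := by linarith
    have h3 : 1 / (2 * D0) * d = d / D0 / 2 := by
      field_simp
    rw [h3] at h2
    have h4 : 1 ≤ d / D0 := by linarith
    rwa [le_div_iff₀ hD00, one_mul] at h4
  have hnd : (d : ℝ) + 1 ≤ Fintype.card V := by
    obtain ⟨v⟩ := Fintype.card_pos_iff.1 hn
    have h1 : (insert v (nb G v)).card = d + 1 := by
      rw [card_insert_of_notMem]
      · rw [← hG v, deg]
      · rw [mem_nb]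
        exact G.loopless.irrefl v
    have h2 := card_le_univ (insert v (nb G v))
    rw [h1] at h2
    exact_mod_cast h2
  have hnR : (0 : ℝ) < Fintype.card V := by linarith
  have hlam : 2 * m / (Fintype.card V * d) ≤ 2 / D0 := by
    rw [div_le_div_iff₀ (by positivity) hD00]
    have h1 : (m : ℝ) * D0 ≤ d * Fintype.card V :=
      mul_le_mul hmd' (by linarith) hD00.le hdR.le
    linarith
  have hlam1 : 2 * m / (Fintype.card V * d) ≤ δ3 := by
    refine hlam.trans ?_
    rw [div_le_iff₀ hD00]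
    have h1 : δ3 * (2 / δ3) ≤ δ3 * D0 :=
      mul_le_mul_of_nonneg_left (by rw [hD0]; linarith) hδ30.le
    have h2 : δ3 * (2 / δ3) = 2 := by field_simp
    linarith
  have hlam2 : 2 * m / (Fintype.card V * d) ≤ (1 / 2 : ℝ) := by
    refine hlam.trans ?_
    rw [div_le_iff₀ hD00]
    have : 4 ≤ D0 := by rw [hD0]; linarith
    linarith
  have hed : 4 ≤ e * d := by
    have h1 : e * (4 / e) ≤ e * d := mul_le_mul_of_nonneg_left (by linarith) he0.le
    have h2 : e * (4 / e) = 4 := by field_simp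
    linarith
  have hα2 : 2 * δ3 + δ3 + (2 * δ2 + s * δ2) / e ^ 2 + 4 * s * Δ / (e ^ 3 * d) ≤ α := by
    have h1 : (2 * δ2 + s * δ2) / e ^ 2 ≤ a / 8 := by
      rw [div_le_iff₀ (by positivity)]
      have h2 := mul_le_mul_of_nonneg_left hδ2a (show 0 ≤ 2 + s by linarith)
      have h3 : (2 + s) * (a * e ^ 2 / (8 * (2 + s))) = a / 8 * e ^ 2 := by
        field_simp
      linarith
    have h4 : 4 * s * Δ / (e ^ 3 * d) ≤ a / 8 := by
      rw [div_le_iff₀ (by positivity)]
      have h5 : (Δ : ℝ) * (1 / 2) ≤ a * e ^ 3 / (64 * s) * d :=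
        (mul_le_mul_of_nonneg_left hlog2 (by linarith)).trans hl3
      have h6 := mul_le_mul_of_nonneg_left h5 (show 0 ≤ 8 * s by positivity)
      have h7 : 8 * s * (a * e ^ 3 / (64 * s) * d) = a / 8 * (e ^ 3 * d) := by
        field_simp
        ring
      linarith
    linarith
  choose W hW using fun (H : SimpleGraph V) (hH : H ≤ G) =>
    hstat U T m Δ d hTree hT hm1 hΔ hηd hl1 V H (fun v => (hG v) ▸ deg_mono hH v)
  obtain ⟨K, f, hf1, hf2, hf3⟩ := core (e := e) (α := α) (Φ := (((d : ℝ) + 1) ^ (J + 3))⁻¹)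
    (s := s) (δ := δ3) (δ2 := δ2) (δ3 := δ3) (J := J) hT hm1 hΔ hΔ1 hG hn hd hmd
    (fun H => if hH : H ≤ G then W H hH else 0)
    (fun H hH => by
      rw [dif_pos hH]
      exact hW H hH) he0 (by linarith) hs hs1 (by positivity) hδ30 (by linarith) hδ20 hδ30
    (by linarith) hJ1 hlam1 hlam2 hed (by linarith) hα2
  refine ⟨K, f, hf1, hf2, ?_⟩
  -- the final computation
  set x : ℝ := (d : ℝ) + 1 with hx
  have hx1 : 1 ≤ x := by linarith
  have hx0 : 0 < x := by linarith
  have hexp : Real.exp (-(δ3 ^ 2 * e ^ 4 * d / (16 * Δ * s))) ≤ (x ^ (J + 3))⁻¹ := by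
    have h1 : δ3 ^ 2 * e ^ 4 * d / (16 * Δ * s) = c8 * d / Δ := by
      rw [hc8]
      field_simp
    have h2 : (J + 3) * Real.log x ≤ c8 * d / Δ := by
      rw [le_div_iff₀ (by linarith)]
      have h3 := mul_le_mul_of_nonneg_left hl2 (show (0 : ℝ) ≤ J + 3 by positivity)
      have h4 : ((J : ℝ) + 3) * (c8 / (J + 3) * d) = c8 * d := by
        field_simp
      rw [hx]
      linarith
    rw [h1]
    have h5 : (x ^ (J + 3))⁻¹ = Real.exp (-((J + 3) * Real.log x)) := by
      rw [Real.exp_neg]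
      congr 1
      rw [← Real.rpow_natCast, Real.rpow_def_of_pos hx0]
      congr 1
      push_cast
      ring
    rw [h5]
    exact Real.exp_le_exp.2 (by linarith)
  have hbig : ((J + 1) * (Fintype.card V * (2 + d ^ 2) *
            Real.exp (-(δ3 ^ 2 * e ^ 4 * d / (16 * Δ * s)))) * (2 + 1 / δ2) +
            s / δ2 * (Fintype.card V * (x ^ (J + 3))⁻¹)) * (1 + 2 * s * d / δ2) ^ J ≤
      Fintype.card V * e := by
    set y : ℝ := (x ^ (J + 3))⁻¹ with hy
    have hy0 : 0 < y := by positivity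
    have h1 : (2 + (d : ℝ) ^ 2) ≤ 2 * x ^ 2 := by rw [hx]; nlinarith
    have h2 : 1 + 2 * s * d / δ2 ≤ C2 * x := by
      have e1 : C2 * x = x + 2 * s * x / δ2 := by rw [hC2]; ring
      have e2 : 2 * s * d / δ2 ≤ 2 * s * x / δ2 := by
        apply div_le_div_of_nonneg_right _ hδ20.le
        apply mul_le_mul_of_nonneg_left _ (by positivity)
        linarith
      linarith
    have h3 : (1 + 2 * s * d / δ2) ^ J ≤ C2 ^ J * x ^ J := by
      rw [← mul_pow]
      exact pow_le_pow_left₀ (by positivity) h2 J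
    have h4 : Fintype.card V * (2 + (d : ℝ) ^ 2) *
        Real.exp (-(δ3 ^ 2 * e ^ 4 * d / (16 * Δ * s))) ≤ Fintype.card V * (2 * x ^ 2) * y := by
      apply mul_le_mul _ hexp (Real.exp_nonneg _) (by positivity)
      exact mul_le_mul_of_nonneg_left h1 hnR.le
    have h5 : (J + 1) * (Fintype.card V * (2 + (d : ℝ) ^ 2) *
            Real.exp (-(δ3 ^ 2 * e ^ 4 * d / (16 * Δ * s)))) * (2 + 1 / δ2) +
            s / δ2 * (Fintype.card V * y) ≤
        Fintype.card V * (x ^ 2 * y) * (2 * (J + 1) * (2 + 1 / δ2) + s / δ2) := by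
      have e1 : (J + 1) * (Fintype.card V * (2 + (d : ℝ) ^ 2) *
            Real.exp (-(δ3 ^ 2 * e ^ 4 * d / (16 * Δ * s)))) * (2 + 1 / δ2) ≤
          (J + 1) * (Fintype.card V * (2 * x ^ 2) * y) * (2 + 1 / δ2) := by
        apply mul_le_mul_of_nonneg_right _ (by positivity)
        exact mul_le_mul_of_nonneg_left h4 (by positivity)
      have e2 : s / δ2 * (Fintype.card V * y) ≤ s / δ2 * (Fintype.card V * (x ^ 2 * y)) := by
        apply mul_le_mul_of_nonneg_left _ (by positivity)
        apply mul_le_mul_of_nonneg_left _ hnR.le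
        exact le_mul_of_one_le_left hy0.le (one_le_pow₀ hx1)
      calc _ ≤ (J + 1) * (Fintype.card V * (2 * x ^ 2) * y) * (2 + 1 / δ2) +
            s / δ2 * (Fintype.card V * (x ^ 2 * y)) := add_le_add e1 e2
        _ = _ := by ring
    calc _ ≤ (Fintype.card V * (x ^ 2 * y) * (2 * (J + 1) * (2 + 1 / δ2) + s / δ2)) *
          (C2 ^ J * x ^ J) := mul_le_mul h5 h3 (by positivity) (by positivity)
      _ = Fintype.card V * C3 * (x ^ 2 * x ^ J * y) := by rw [hC3]; ring
      _ = Fintype.card V * (C3 / x) := by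
          have : x ^ 2 * x ^ J * y = 1 / x := by
            rw [hy, ← pow_add, show J + 3 = (2 + J) + 1 by ring, pow_succ x (2 + J)]
            field_simp
          rw [this]
          ring
      _ ≤ Fintype.card V * e := by
          apply mul_le_mul_of_nonneg_left _ hnR.le
          rw [div_le_iff₀ hx0]
          have h6 : e * (C3 / e) ≤ e * x := mul_le_mul_of_nonneg_left (by linarith) he0.le
          have h7 : e * (C3 / e) = C3 := by field_simp
          linarith
  have h8 := mul_le_mul_of_nonneg_left hbig hdR.le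
  have h9 : 2 * e * (1 + δ3) + δ2 ≤ 4 * e := by
    have : δ3 ≤ 1 / 16 := by rw [hδ3]; linarith
    nlinarith
  have h10 : (Fintype.card V * d : ℝ) * (2 * e * (1 + δ3) + δ2) ≤
      Fintype.card V * d * (4 * e) := mul_le_mul_of_nonneg_left h9 (by positivity)
  have h11 : (Fintype.card V * d : ℝ) * (8 * e) ≤ Fintype.card V * d * ε :=
    mul_le_mul_of_nonneg_left heε (by positivity)
  have h12 : 0 ≤ (Fintype.card V * d : ℝ) * e := by positivity
  linarith [hf3, h8, h10, h11, h12]

end Pool.Agent.Lib.GHApprox
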