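import Pool.Agent.Lib.GHApprox.DynSeq

set_option autoImplicit false

/-!
Dynamic part, step 3: the whole deterministic sequence of subgraphs, with the identities for the
degrees and codegrees and the bound for the potential.
-/

namespace Pool.Agent.Lib.GHApprox

open Finset Classical

section run

variable {U V : Type} [Fintype U] [Fintype V]

/-- missing usage at `v`. -/
noncomputable def ff (T : SimpleGraph U) (m : ℕ) (H : SimpleGraph V) (w : (U → V) → ℝ) (v : V) : ℝ :=
  ∑ x ∈ nb H v, (1 - use T w v x / (2 * m))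

/-- missing usage at a pair. -/
noncomputable def ff2 (T : SimpleGraph U) (m : ℕ) (H : SimpleGraph V) (w : (U → V) → ℝ)
    (u v : V) : ℝ :=
  ∑ x ∈ nb H u ∩ nb H v, ((1 - use T w u x / (2 * m)) + (1 - use T w v x / (2 * m)) +
    both T w u v x / (2 * m))

lemma deg_remO {T : SimpleGraph U} {H : SimpleGraph V} {o : Option (U → V)}
    (ho : ∀ φ, o = some φ → IsCopy T H φ) (v : V) :
    (deg (remO T H o) v : ℝ) = deg H v - hO T v o := by
  cases o with
  | none => simp [remO, hO]
  | some φ =>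
      have := deg_remv (ho φ rfl) v
      simp only [remO, hO]
      rw [← this]
      push_cast
      ring

lemma codeg_remO {T : SimpleGraph U} {H : SimpleGraph V} {o : Option (U → V)} (u v : V) :
    (codeg (remO T H o) u v : ℝ) = codeg H u v - cO T H u v o := by
  cases o with
  | none => simp [remO, cO]
  | some φ =>
      have := codeg_remv (T := T) (H := H) (φ := φ) u v
      simp only [remO, cO]
      rw [← this]
      push_cast
      ring

lemma remO_le (T : SimpleGraph U) (H : SimpleGraph V) (o : Option (U → V)) : remO T H o ≤ H := by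
  cases o with
  | none => exact le_rfl
  | some φ => exact remv_le T H φ

section
variable {T : SimpleGraph U} {H : SimpleGraph V} {m Δ d : ℕ} {ε α Φ : ℝ} {w : (U → V) → ℝ}

lemma IsWeight.mu1_eq (hw : IsWeight T H m Δ d ε α Φ w) (hm1 : 1 ≤ m) {D : ℝ} (v : V) :
    mu1 T w D v = 2 * m / D * (deg H v - ff T m H w v) := by
  have hm : (2 * (m : ℝ)) ≠ 0 := by
    have : (0 : ℝ) < m := by exact_mod_cast hm1
    positivity
  have h1 : mu1 T w D v = (∑ x ∈ nb H v, use T w v x) / D := by
    rw [← hw.sum_hits, mu1, sum_div]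
    exact sum_congr rfl fun φ _ => by ring
  have h2 : ff T m H w v = deg H v - (∑ x ∈ nb H v, use T w v x) / (2 * m) := by
    rw [ff, sum_sub_distrib, sum_const, deg, sum_div, nsmul_eq_mul, mul_one]
  rw [h1, h2]
  field_simp
  ring

lemma IsWeight.mu2_eq (hw : IsWeight T H m Δ d ε α Φ w) (hm1 : 1 ≤ m) {D : ℝ} (u v : V) :
    mu2 T H w D u v = 2 * m / D * (2 * codeg H u v - ff2 T m H w u v) := by
  have hm : (2 * (m : ℝ)) ≠ 0 := by
    have : (0 : ℝ) < m := by exact_mod_cast hm1
    positivity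
  have h1 : mu2 T H w D u v =
      (∑ x ∈ nb H u ∩ nb H v, (use T w u x + use T w v x - both T w u v x)) / D := by
    rw [← hw.sum_chits, mu2, sum_div]
    exact sum_congr rfl fun φ _ => by ring
  have h2 : ff2 T m H w u v = 2 * codeg H u v -
      (∑ x ∈ nb H u ∩ nb H v, (use T w u x + use T w v x - both T w u v x)) / (2 * m) := by
    rw [ff2, codeg, sum_div, card_eq_sum_ones]
    push_cast
    rw [mul_sum, ← sum_sub_distrib]
    apply sum_congr rfl
    intro x _
    field_simp
    ring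
  rw [h1, h2]
  field_simp
  ring

lemma IsWeight.ff_nonneg (hw : IsWeight T H m Δ d ε α Φ w) (hm1 : 1 ≤ m) (v : V) :
    0 ≤ ff T m H w v := by
  apply sum_nonneg
  intro x hx
  have hm : (0 : ℝ) < m := by exact_mod_cast hm1
  rw [sub_nonneg, div_le_one (by positivity)]
  exact hw.edge v x (mem_nb.1 hx)

lemma IsWeight.ff2_nonneg (hw : IsWeight T H m Δ d ε α Φ w) (hm1 : 1 ≤ m) (u v : V) :
    0 ≤ ff2 T m H w u v := by
  apply sum_nonneg
  intro x hx
  rw [mem_inter, mem_nb, mem_nb] at hx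
  have hm : (0 : ℝ) < m := by exact_mod_cast hm1
  have h1 : use T w u x / (2 * m) ≤ 1 := by
    rw [div_le_one (by positivity)]
    exact hw.edge u x hx.1
  have h2 : use T w v x / (2 * m) ≤ 1 := by
    rw [div_le_one (by positivity)]
    exact hw.edge v x hx.2
  have h3 : 0 ≤ both T w u v x / (2 * m) := div_nonneg (hw.both_nonneg u v x) (by positivity)
  linarith

end

/-- the state of the process. -/
structure St (V : Type) where
  /-- the remaining graph -/
  H : SimpleGraph V
  /-- corrected degrees -/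
  X : V → ℝ
  /-- corrected codegrees -/
  Y : V → V → ℝ

/-- **The sequence.** -/
theorem exists_run {T : SimpleGraph U} {G : SimpleGraph V} {m Δ d N : ℕ} {ε α Φ lam κ ρ e : ℝ}
    (hT : T.edgeSet.ncard = m) (hm1 : 1 ≤ m) (hΔ : ∀ u, deg T u ≤ Δ) (hG : ∀ v, deg G v = d)
    (hn : 0 < Fintype.card V) (hd : 0 < d)
    (W : SimpleGraph V → (U → V) → ℝ)
    (hW : ∀ H : SimpleGraph V, H ≤ G → IsWeight T H m Δ d ε α Φ (W H))
    (hlam : lam = 2 * m / (Fintype.card V * d)) (hlam1 : lam < 1)
    (P : Finset (V × V)) (he : 0 < e) (hγe : ∀ k ≤ N, e ≤ (1 - lam) ^ k)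
    (hκ : 0 ≤ κ) (h1 : κ / e ^ 2 * (2 * Δ) ≤ 1)
    (h2 : (κ / e ^ 2) ^ 2 * (2 * Δ) * (2 * (lam * d)) ≤ ρ) :
    ∃ (H : ℕ → SimpleGraph V) (o : ℕ → Option (U → V)) (X : ℕ → V → ℝ) (Y : ℕ → V → V → ℝ),
      H 0 = G ∧ (∀ k, H (k + 1) = remO T (H k) (o k)) ∧
      (∀ k φ, o k = some φ → IsCopy T (H k) φ) ∧ (∀ k, H k ≤ G) ∧
      (∀ k v, (deg (H k) v : ℝ) = (1 - lam) ^ k *
        (X k v + ∑ i ∈ range k, lam * ff T m (H i) (W (H i)) v / (1 - lam) ^ (i + 1))) ∧
      (∀ k u v, (codeg (H k) u v : ℝ) ≤ ((1 - lam) ^ k) ^ 2 *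
        (Y k u v + ∑ i ∈ range k, lam * ff2 T m (H i) (W (H i)) u v /
          ((1 - lam) ^ (i + 1)) ^ 2)) ∧
      (∀ k ≤ N, Pot P κ d (X k) (Y k) ≤
        (2 * Fintype.card V + P.card) * (1 + ρ) ^ k) := by
  have hD : (0 : ℝ) < Fintype.card V * d := by positivity
  have hm : (0 : ℝ) < m := by exact_mod_cast hm1
  have hlam0 : 0 < lam := by
    rw [hlam]
    positivity
  have hγ0 : 0 < 1 - lam := by linarith
  have hρ : 0 ≤ ρ := le_trans (by positivity) h2
  -- the invariant and the step relation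
  let Inv : ℕ → St V → Prop := fun k s => s.H ≤ G ∧
    (k ≤ N → Pot P κ d s.X s.Y ≤ (2 * Fintype.card V + P.card) * (1 + ρ) ^ k)
  let Step : ℕ → St V → St V → Prop := fun k s s' =>
    ∃ o : Option (U → V), (∀ φ, o = some φ → IsCopy T s.H φ) ∧ s'.H = remO T s.H o ∧
      (∀ v, s'.X v = s.X v +
        (mu1 T (W s.H) (Fintype.card V * d) v - hO T v o) / (1 - lam) ^ (k + 1)) ∧
      (∀ u v, s'.Y u v = s.Y u v +
        (mu2 T s.H (W s.H) (Fintype.card V * d) u v - cO T s.H u v o) /
          ((1 - lam) ^ (k + 1)) ^ 2)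
  have hinit : Inv 0 ⟨G, fun _ => d, fun u v => codeg G u v⟩ := by
    refine ⟨le_rfl, fun _ => ?_⟩
    rw [pow_zero, mul_one, Pot]
    apply add_le_add
    · simp only [sub_self, mul_zero, Real.exp_zero, sum_const, card_univ, nsmul_eq_mul]
      linarith
    · calc ∑ p ∈ P, Real.exp (κ * ((codeg G p.1 p.2 : ℝ) - d)) ≤ ∑ p ∈ P, (1 : ℝ) := by
            apply sum_le_sum
            intro p _
            rw [Real.exp_le_one_iff]
            apply mul_nonpos_of_nonneg_of_nonpos hκ
            rw [sub_nonpos, Nat.cast_le]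
            have : codeg G p.1 p.2 ≤ deg G p.1 := card_le_card inter_subset_left
            rwa [hG] at this
        _ = P.card := by simp
  have hstep : ∀ k s, Inv k s → ∃ s', Step k s s' ∧ Inv (k + 1) s' := by
    rintro k s ⟨hsG, hsP⟩
    have hw := hW s.H hsG
    have hdegs : ∀ v, deg s.H v ≤ d := fun v => (hG v) ▸ deg_mono hsG v
    by_cases hk : k + 1 ≤ N
    · have hgk := hγe (k + 1) hk
      have hgk1 : (1 - lam) ^ (k + 1) ≤ 1 := pow_le_one₀ hγ0.le (by linarith)
      have hgk0 : 0 < (1 - lam) ^ (k + 1) := pow_pos hγ0 _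
      have hkk : κ / ((1 - lam) ^ (k + 1)) ^ 2 ≤ κ / e ^ 2 :=
        div_le_div_of_nonneg_left hκ (by positivity) (pow_le_pow_left₀ he.le hgk 2)
      have hkk0 : 0 ≤ κ / ((1 - lam) ^ (k + 1)) ^ 2 := by positivity
      have hmu1 : ∀ v, mu1 T (W s.H) (Fintype.card V * d) v ≤ 2 * (lam * d) := by
        intro v
        rw [hw.mu1_eq hm1, ← hlam]
        have h0 := hw.ff_nonneg hm1 v
        have h3 : (deg s.H v : ℝ) ≤ d := by exact_mod_cast hdegs v
        have : lam * (deg s.H v - ff T m s.H (W s.H) v) ≤ lam * d :=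
          mul_le_mul_of_nonneg_left (by linarith) hlam0.le
        have h4 : 0 ≤ lam * d := by positivity
        linarith
      have hmu2 : ∀ u v, mu2 T s.H (W s.H) (Fintype.card V * d) u v ≤ 2 * (lam * d) := by
        intro u v
        rw [hw.mu2_eq hm1, ← hlam]
        have h0 := hw.ff2_nonneg hm1 u v
        have h3 : (codeg s.H u v : ℝ) ≤ d := by
          have : codeg s.H u v ≤ deg s.H u := card_le_card inter_subset_left
          exact_mod_cast this.trans (hdegs u)
        have : lam * (2 * codeg s.H u v - ff2 T m s.H (W s.H) u v) ≤ lam * (2 * d) :=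
          mul_le_mul_of_nonneg_left (by linarith) hlam0.le
        linarith
      have hρ' : ∀ μ : ℝ, μ ≤ 2 * (lam * d) →
          (κ / ((1 - lam) ^ (k + 1)) ^ 2) ^ 2 * (2 * Δ) * μ ≤ ρ := by
        intro μ hμ
        refine le_trans ?_ h2
        have ha : (κ / ((1 - lam) ^ (k + 1)) ^ 2) ^ 2 * (2 * Δ) ≤ (κ / e ^ 2) ^ 2 * (2 * Δ) :=
          mul_le_mul_of_nonneg_right (pow_le_pow_left₀ hkk0 hkk 2) (by positivity)
        calc (κ / ((1 - lam) ^ (k + 1)) ^ 2) ^ 2 * (2 * Δ) * μ
            ≤ (κ / ((1 - lam) ^ (k + 1)) ^ 2) ^ 2 * (2 * Δ) * (2 * (lam * d)) :=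
              mul_le_mul_of_nonneg_left hμ (by positivity)
          _ ≤ _ := mul_le_mul_of_nonneg_right ha (by positivity)
      obtain ⟨o, ho1, ho2⟩ := pot_step (d := (d : ℝ)) (ρ := ρ) hΔ hw.nonneg hw.supp hD
        (hw.total hT hm1 hdegs) P hκ hgk0 hgk1
        (le_trans (mul_le_mul_of_nonneg_right hkk (by positivity)) h1)
        (fun v => hρ' _ (hmu1 v)) (fun u v => hρ' _ (hmu2 u v)) s.X s.Y
      refine ⟨⟨remO T s.H o, _, _⟩, ⟨o, ho1, rfl, fun v => rfl, fun u v => rfl⟩,
        (remO_le T s.H o).trans hsG, fun _ => ?_⟩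
      refine ho2.trans ?_
      have := hsP (by omega)
      calc (1 + ρ) * Pot P κ d s.X s.Y ≤
          (1 + ρ) * ((2 * Fintype.card V + P.card) * (1 + ρ) ^ k) :=
            mul_le_mul_of_nonneg_left this (by linarith)
        _ = _ := by ring
    · refine ⟨⟨remO T s.H none, fun v => s.X v +
        (mu1 T (W s.H) (Fintype.card V * d) v - hO T v none) / (1 - lam) ^ (k + 1),
        fun u v => s.Y u v +
        (mu2 T s.H (W s.H) (Fintype.card V * d) u v - cO T s.H u v none) /
          ((1 - lam) ^ (k + 1)) ^ 2⟩, ⟨none, by simp, rfl, fun v => rfl, fun u v => rfl⟩,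
        hsG, fun h => absurd h hk⟩
  obtain ⟨s, hs0, hs⟩ := exists_seq Inv Step _ hinit hstep
  choose o ho using fun k => (hs k).2
  refine ⟨fun k => (s k).H, o, fun k => (s k).X, fun k => (s k).Y, ?_, fun k => (ho k).2.1,
    fun k => (ho k).1, fun k => (hs k).1.1, ?_, ?_, fun k hk => (hs k).1.2 hk⟩
  · simp [hs0]
  · intro k v
    induction k with
    | zero =>
        simp only [pow_zero, one_mul, range_zero, sum_empty, add_zero, hs0]
        rw [hG]
    | succ k ih =>
        obtain ⟨h1, h2, h3, h4⟩ := ho k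
        have hw := hW (s k).H (hs k).1.1
        beta_reduce at ih ⊢
        rw [h2, deg_remO h1, h3, sum_range_succ, hw.mu1_eq hm1, ← hlam]
        have hg : (1 - lam) ^ (k + 1) ≠ 0 := (pow_pos hγ0 _).ne'
        have e1 : (1 - lam) ^ (k + 1) * ((s k).X v + (lam * ((deg (s k).H v : ℝ) -
            ff T m (s k).H (W (s k).H) v) - hO T v (o k)) / (1 - lam) ^ (k + 1) +
            (∑ i ∈ range k, lam * ff T m (s i).H (W (s i).H) v / (1 - lam) ^ (i + 1) +
            lam * ff T m (s k).H (W (s k).H) v / (1 - lam) ^ (k + 1))) =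
            (1 - lam) * ((1 - lam) ^ k * ((s k).X v +
              ∑ i ∈ range k, lam * ff T m (s i).H (W (s i).H) v / (1 - lam) ^ (i + 1))) +
            (lam * ((deg (s k).H v : ℝ) - ff T m (s k).H (W (s k).H) v) - hO T v (o k)) +
            lam * ff T m (s k).H (W (s k).H) v := by
          field_simp
          ring
        rw [e1, ← ih]
        ring
  · intro k u v
    induction k with
    | zero =>
        simp only [pow_zero, one_mul, range_zero, sum_empty, add_zero, hs0, one_pow]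
        exact le_rfl
    | succ k ih =>
        obtain ⟨h1, h2, h3, h4⟩ := ho k
        have hw := hW (s k).H (hs k).1.1
        beta_reduce at ih ⊢
        rw [h2, codeg_remO, h4, sum_range_succ, hw.mu2_eq hm1, ← hlam]
        have hg : (1 - lam) ^ (k + 1) ≠ 0 := (pow_pos hγ0 _).ne'
        have e1 : ((1 - lam) ^ (k + 1)) ^ 2 * ((s k).Y u v + (lam * (2 * (codeg (s k).H u v : ℝ) -
            ff2 T m (s k).H (W (s k).H) u v) - cO T (s k).H u v (o k)) /
              ((1 - lam) ^ (k + 1)) ^ 2 +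
            (∑ i ∈ range k, lam * ff2 T m (s i).H (W (s i).H) u v / ((1 - lam) ^ (i + 1)) ^ 2 +
            lam * ff2 T m (s k).H (W (s k).H) u v / ((1 - lam) ^ (k + 1)) ^ 2)) =
            (1 - lam) ^ 2 * (((1 - lam) ^ k) ^ 2 * ((s k).Y u v +
              ∑ i ∈ range k, lam * ff2 T m (s i).H (W (s i).H) u v /
                ((1 - lam) ^ (i + 1)) ^ 2)) +
            (lam * (2 * (codeg (s k).H u v : ℝ) - ff2 T m (s k).H (W (s k).H) u v) -
              cO T (s k).H u v (o k)) +
            lam * ff2 T m (s k).H (W (s k).H) u v := by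
          field_simp
          ring
        rw [e1]
        have e2 := mul_le_mul_of_nonneg_left ih (sq_nonneg (1 - lam))
        have e3 : (0 : ℝ) ≤ codeg (s k).H u v := Nat.cast_nonneg _
        nlinarith [mul_nonneg e3 (sq_nonneg lam)]

end run

end Pool.Agent.Lib.GHApprox
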