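import Pool.Agent.Lib.GHApprox.DynStep

set_option autoImplicit false

/-!
Dynamic part, step 2: one step of the process along the potential, and the whole sequence.
-/

namespace Pool.Agent.Lib.GHApprox

open Finset Classical

section mean

variable {ι : Type} [Fintype ι]

/-- mean of `F` when `some i` has probability `p i` and `none` the remaining probability. -/
noncomputable def mean (p : ι → ℝ) (F : Option ι → ℝ) : ℝ :=
  ∑ i, p i * F (some i) + (1 - ∑ i, p i) * F none

lemma mean_add (p : ι → ℝ) (F G : Option ι → ℝ) :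
    mean p (fun o => F o + G o) = mean p F + mean p G := by
  unfold mean
  simp_rw [mul_add, sum_add_distrib]
  ring

lemma mean_mul (p : ι → ℝ) (c : ℝ) (F : Option ι → ℝ) :
    mean p (fun o => c * F o) = c * mean p F := by
  unfold mean
  have : ∀ i, p i * (c * F (some i)) = c * (p i * F (some i)) := fun i => by ring
  rw [sum_congr rfl fun i _ => this i, ← mul_sum]
  ring

lemma mean_sum {κ : Type} (s : Finset κ) (p : ι → ℝ) (F : κ → Option ι → ℝ) :
    mean p (fun o => ∑ k ∈ s, F k o) = ∑ k ∈ s, mean p (F k) := by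
  induction s using Finset.induction_on with
  | empty => simp [mean]
  | insert a s ha ih =>
      rw [sum_insert ha, ← ih, ← mean_add]
      congr 1
      ext o
      rw [sum_insert ha]

end mean

section step

variable {U V : Type} [Fintype U] [Fintype V]

/-- the graph after the choice `o`. -/
def remO (T : SimpleGraph U) (H : SimpleGraph V) : Option (U → V) → SimpleGraph V
  | none => H
  | some φ => remv T H φ

/-- edges lost at `v`. -/
noncomputable def hO (T : SimpleGraph U) (v : V) : Option (U → V) → ℝ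
  | none => 0
  | some φ => hits T φ v

/-- common neighbours lost by `u, v`. -/
noncomputable def cO (T : SimpleGraph U) (H : SimpleGraph V) (u v : V) : Option (U → V) → ℝ
  | none => 0
  | some φ => chits T H φ u v

/-- expected number of edges lost at `v`. -/
noncomputable def mu1 (T : SimpleGraph U) (w : (U → V) → ℝ) (D : ℝ) (v : V) : ℝ :=
  ∑ φ : U → V, w φ / D * hits T φ v

/-- expected number of common neighbours lost by `u, v`. -/
noncomputable def mu2 (T : SimpleGraph U) (H : SimpleGraph V) (w : (U → V) → ℝ) (D : ℝ)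
    (u v : V) : ℝ :=
  ∑ φ : U → V, w φ / D * chits T H φ u v

/-- the potential. -/
noncomputable def Pot (P : Finset (V × V)) (κ d : ℝ) (X : V → ℝ) (Y : V → V → ℝ) : ℝ :=
  ∑ v : V, (Real.exp (κ * (X v - d)) + Real.exp (-κ * (X v - d))) +
    ∑ p ∈ P, Real.exp (κ * (Y p.1 p.2 - d))

lemma pot_step {T : SimpleGraph U} {H : SimpleGraph V} {w : (U → V) → ℝ} {Δ : ℕ}
    (hΔ : ∀ u, deg T u ≤ Δ)
    (hw0 : ∀ φ, 0 ≤ w φ) (hw1 : ∀ φ, w φ ≠ 0 → IsCopy T H φ) {D : ℝ} (hD : 0 < D)
    (htot : ∑ φ : U → V, w φ ≤ D) (P : Finset (V × V)) {κ d γ ρ : ℝ} (hκ : 0 ≤ κ) (hγ : 0 < γ)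
    (hγ1 : γ ≤ 1)
    (h1 : κ / γ ^ 2 * (2 * Δ) ≤ 1)
    (h2 : ∀ v, (κ / γ ^ 2) ^ 2 * (2 * Δ) * mu1 T w D v ≤ ρ)
    (h3 : ∀ u v, (κ / γ ^ 2) ^ 2 * (2 * Δ) * mu2 T H w D u v ≤ ρ)
    (X : V → ℝ) (Y : V → V → ℝ) :
    ∃ o : Option (U → V), (∀ φ, o = some φ → IsCopy T H φ) ∧
      Pot P κ d (fun v => X v + (mu1 T w D v - hO T v o) / γ)
        (fun u v => Y u v + (mu2 T H w D u v - cO T H u v o) / γ ^ 2) ≤ (1 + ρ) * Pot P κ d X Y := by
  set p : (U → V) → ℝ := fun φ => w φ / D with hp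
  have hp0 : ∀ φ, 0 ≤ p φ := fun φ => div_nonneg (hw0 φ) hD.le
  have hp1 : ∑ φ, p φ ≤ 1 := by
    rw [hp, ← sum_div, div_le_one hD]
    exact htot
  have hpne : ∀ φ, p φ ≠ 0 → IsCopy T H φ := by
    intro φ h
    apply hw1
    intro h0
    apply h
    simp [hp, h0]
  have hΔ0 : (0 : ℝ) ≤ Δ := Nat.cast_nonneg _
  -- one exponential
  have key : ∀ (h : Option (U → V) → ℝ) (μ E κ' : ℝ), h none = 0 →
      (∀ φ, p φ ≠ 0 → 0 ≤ h (some φ) ∧ h (some φ) ≤ E) → 0 ≤ E →
      μ = ∑ φ, p φ * h (some φ) → |κ'| * E ≤ 1 → κ' ^ 2 * E * μ ≤ ρ →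
      mean p (fun o => Real.exp (κ' * (μ - h o))) ≤ 1 + ρ := by
    intro h μ E κ' hn hh hE hμ hκE hρ
    have := exp_mean p (fun φ => h (some φ)) E κ' hp0 hp1 hh hE hκE
    rw [← hμ] at this
    unfold mean
    simp only [hn, sub_zero]
    linarith
  have hγ2 : 0 < γ ^ 2 := by positivity
  have hγ2' : γ ^ 2 ≤ γ := by nlinarith
  have hkk : κ / γ ≤ κ / γ ^ 2 := div_le_div_of_nonneg_left hκ hγ2 hγ2'
  have hk0 : 0 ≤ κ / γ := by positivity
  have hk20 : 0 ≤ κ / γ ^ 2 := by positivity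
  have hmu1 : ∀ v, 0 ≤ mu1 T w D v := fun v =>
    sum_nonneg fun φ _ => mul_nonneg (hp0 φ) (Nat.cast_nonneg _)
  have kX : ∀ (v : V) (s : ℝ), (s = 1 ∨ s = -1) →
      mean p (fun o => Real.exp (s * κ / γ * (mu1 T w D v - hO T v o))) ≤ 1 + ρ := by
    intro v s hs
    apply key (hO T v) (mu1 T w D v) Δ (s * κ / γ) rfl _ hΔ0 rfl
    · have : |s * κ / γ| = κ / γ := by
        rcases hs with rfl | rfl
        · rw [one_mul, abs_of_nonneg hk0]
        · rw [neg_one_mul, neg_div, abs_neg, abs_of_nonneg hk0]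
      rw [this]
      calc κ / γ * Δ ≤ κ / γ ^ 2 * (2 * Δ) := by
            apply mul_le_mul hkk _ hΔ0 hk20
            linarith
        _ ≤ 1 := h1
    · refine le_trans ?_ (h2 v)
      apply mul_le_mul_of_nonneg_right _ (hmu1 v)
      have : (s * κ / γ) ^ 2 = (κ / γ) ^ 2 := by
        rcases hs with rfl | rfl <;> ring
      rw [this]
      apply mul_le_mul _ _ hΔ0 (sq_nonneg _)
      · exact pow_le_pow_left₀ hk0 hkk 2
      · linarith
    · intro φ hφ
      refine ⟨Nat.cast_nonneg _, ?_⟩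
      exact Nat.cast_le.2 (hits_le (hpne φ hφ).1 hΔ v)
  have kY : ∀ (u v : V),
      mean p (fun o => Real.exp (κ / γ ^ 2 * (mu2 T H w D u v - cO T H u v o))) ≤ 1 + ρ := by
    intro u v
    apply key (cO T H u v) (mu2 T H w D u v) (2 * Δ) (κ / γ ^ 2) rfl _ (by positivity) rfl
    · rw [abs_of_nonneg hk20]
      exact h1
    · exact h3 u v
    · intro φ hφ
      refine ⟨Nat.cast_nonneg _, ?_⟩
      have := chits_le (H := H) (hpne φ hφ).1 hΔ u v
      show ((chits T H φ u v : ℕ) : ℝ) ≤ 2 * Δ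
      exact_mod_cast this
  set F : Option (U → V) → ℝ := fun o =>
    Pot P κ d (fun v => X v + (mu1 T w D v - hO T v o) / γ)
        (fun u v => Y u v + (mu2 T H w D u v - cO T H u v o) / γ ^ 2) with hF
  have hmean : mean p F ≤ (1 + ρ) * Pot P κ d X Y := by
    have e1 : ∀ (v : V) (o : Option (U → V)),
        Real.exp (κ * (X v + (mu1 T w D v - hO T v o) / γ - d)) =
        Real.exp (κ * (X v - d)) * Real.exp (1 * κ / γ * (mu1 T w D v - hO T v o)) := by
      intro v o
      rw [← Real.exp_add]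
      congr 1
      ring
    have e2 : ∀ (v : V) (o : Option (U → V)),
        Real.exp (-κ * (X v + (mu1 T w D v - hO T v o) / γ - d)) =
        Real.exp (-κ * (X v - d)) * Real.exp (-1 * κ / γ * (mu1 T w D v - hO T v o)) := by
      intro v o
      rw [← Real.exp_add]
      congr 1
      ring
    have e3 : ∀ (u v : V) (o : Option (U → V)),
        Real.exp (κ * (Y u v + (mu2 T H w D u v - cO T H u v o) / γ ^ 2 - d)) =
        Real.exp (κ * (Y u v - d)) *
          Real.exp (κ / γ ^ 2 * (mu2 T H w D u v - cO T H u v o)) := by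
      intro u v o
      rw [← Real.exp_add]
      congr 1
      ring
    have e4 : F = fun o => (∑ v : V, (Real.exp (κ * (X v - d)) *
          Real.exp (1 * κ / γ * (mu1 T w D v - hO T v o)) +
        Real.exp (-κ * (X v - d)) * Real.exp (-1 * κ / γ * (mu1 T w D v - hO T v o)))) +
        ∑ q ∈ P, Real.exp (κ * (Y q.1 q.2 - d)) *
          Real.exp (κ / γ ^ 2 * (mu2 T H w D q.1 q.2 - cO T H q.1 q.2 o)) := by
      ext o
      rw [hF]
      simp only [Pot, e1, e2, e3]
    rw [e4, mean_add, mean_sum, mean_sum, Pot, mul_add, mul_sum, mul_sum]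
    apply add_le_add
    · apply sum_le_sum
      intro v _
      rw [mean_add, mean_mul, mean_mul, mul_add]
      apply add_le_add
      · rw [mul_comm]
        exact mul_le_mul_of_nonneg_right (kX v 1 (Or.inl rfl)) (Real.exp_nonneg _)
      · rw [mul_comm]
        exact mul_le_mul_of_nonneg_right (kX v (-1) (Or.inr rfl)) (Real.exp_nonneg _)
    · apply sum_le_sum
      intro q _
      rw [mean_mul, mul_comm]
      exact mul_le_mul_of_nonneg_right (kY q.1 q.2) (Real.exp_nonneg _)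
  rcases exists_le_of_mean p (fun φ => F (some φ)) (F none) _ hp0 hp1 hmean with ⟨φ, hφ, hle⟩ | hle
  · refine ⟨some φ, ?_, hle⟩
    intro ψ hψ
    cases hψ
    exact hpne φ hφ
  · exact ⟨none, by simp, hle⟩

end step

/-- dependent choice with an invariant. -/
lemma exists_seq {S : Type} (Inv : ℕ → S → Prop) (Step : ℕ → S → S → Prop) (s0 : S)
    (h0 : Inv 0 s0) (h : ∀ k s, Inv k s → ∃ s', Step k s s' ∧ Inv (k + 1) s') :
    ∃ s : ℕ → S, s 0 = s0 ∧ ∀ k, Inv k (s k) ∧ Step k (s k) (s (k + 1)) := by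
  choose f hf using h
  let g : (k : ℕ) → {s : S // Inv k s} := fun k =>
    Nat.rec (motive := fun k => {s : S // Inv k s}) ⟨s0, h0⟩
      (fun k s => ⟨f k s.1 s.2, (hf k s.1 s.2).2⟩) k
  refine ⟨fun k => (g k).1, rfl, fun k => ⟨(g k).2, ?_⟩⟩
  exact (hf k (g k).1 (g k).2).1

end Pool.Agent.Lib.GHApprox
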