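import Pool.Agent.Lib.GHApprox.DynDefs

set_option autoImplicit false

/-!
Dynamic part, step 1: removing one copy; expected number of removed edges; the averaging argument.
-/

namespace Pool.Agent.Lib.GHApprox

open Finset Classical

section basic

variable {U V : Type} [Fintype U] [Fintype V]

lemma mem_nb {H : SimpleGraph V} {v x : V} : x ∈ nb H v ↔ H.Adj v x := by simp [nb]

lemma Hit.symm {T : SimpleGraph U} {φ : U → V} {x y : V} (h : Hit T φ x y) : Hit T φ y x := by
  obtain ⟨a, b, hab, ha, hb⟩ := h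
  exact ⟨b, a, hab.symm, hb, ha⟩

lemma IsCopy.adj {T : SimpleGraph U} {H : SimpleGraph V} {φ : U → V} (h : IsCopy T H φ) {x y : V}
    (hh : Hit T φ x y) : H.Adj x y := by
  obtain ⟨a, b, hab, ha, hb⟩ := hh
  rw [← ha, ← hb]
  exact h.2 a b hab

lemma IsCopy.mono {T : SimpleGraph U} {H H' : SimpleGraph V} {φ : U → V} (h : IsCopy T H φ)
    (hle : H ≤ H') : IsCopy T H' φ := ⟨h.1, fun a b hab => hle (h.2 a b hab)⟩

/-- remove the image of `φ`. -/
def remv (T : SimpleGraph U) (H : SimpleGraph V) (φ : U → V) : SimpleGraph V where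
  Adj x y := H.Adj x y ∧ ¬ Hit T φ x y
  symm := ⟨fun _ _ h => ⟨h.1.symm, fun h' => h.2 h'.symm⟩⟩
  loopless := ⟨fun x h => H.loopless.irrefl x h.1⟩

lemma remv_le (T : SimpleGraph U) (H : SimpleGraph V) (φ : U → V) : remv T H φ ≤ H :=
  fun _ _ h => h.1

/-- number of edges of the copy at `v`. -/
noncomputable def hits (T : SimpleGraph U) (φ : U → V) (v : V) : ℕ :=
  (univ.filter fun x => Hit T φ v x).card

lemma hits_image {T : SimpleGraph U} {φ : U → V} (hφ : Function.Injective φ) (a : U) :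
    hits T φ (φ a) = deg T a := by
  have : (univ.filter fun x => Hit T φ (φ a) x) = (nb T a).image φ := by
    ext x
    simp only [mem_filter, mem_univ, true_and, mem_image, mem_nb]
    constructor
    · rintro ⟨a', b, hab, ha, hb⟩
      have := hφ ha
      subst this
      exact ⟨b, hab, hb⟩
    · rintro ⟨b, hb, rfl⟩
      exact ⟨a, b, hb, rfl, rfl⟩
  rw [hits, this, card_image_of_injective _ hφ, deg]

lemma hits_eq_zero {T : SimpleGraph U} {φ : U → V} {v : V} (hv : ∀ a, φ a ≠ v) :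
    hits T φ v = 0 := by
  rw [hits, card_eq_zero, filter_eq_empty_iff]
  rintro x - ⟨a, b, -, ha, -⟩
  exact hv a ha

lemma hits_le {T : SimpleGraph U} {φ : U → V} (hφ : Function.Injective φ) {Δ : ℕ}
    (hΔ : ∀ u, deg T u ≤ Δ) (v : V) : hits T φ v ≤ Δ := by
  by_cases h : ∃ a, φ a = v
  · obtain ⟨a, rfl⟩ := h
    rw [hits_image hφ]
    exact hΔ a
  · push Not at h
    rw [hits_eq_zero h]
    exact Nat.zero_le _

lemma sum_deg (T : SimpleGraph U) : ∑ a : U, deg T a = 2 * T.edgeSet.ncard := by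
  have h := T.sum_degrees_eq_twice_card_edges
  have h1 : ∀ a, T.degree a = deg T a := by
    intro a
    rw [deg, nb, ← SimpleGraph.card_neighborFinset_eq_degree]
    congr 1
    ext x
    simp
  rw [Finset.sum_congr rfl (fun a _ => (h1 a).symm), h]
  congr 1
  rw [Set.ncard_eq_toFinset_card', SimpleGraph.edgeFinset]

lemma sum_hits {T : SimpleGraph U} {φ : U → V} (hφ : Function.Injective φ) :
    ∑ v : V, hits T φ v = 2 * T.edgeSet.ncard := by
  rw [← sum_deg T]
  have h1 : ∑ v : V, hits T φ v = ∑ v ∈ univ.image φ, hits T φ v := by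
    symm
    apply sum_subset (subset_univ _)
    intro v _ hv
    apply hits_eq_zero
    intro a ha
    exact hv (mem_image.2 ⟨a, mem_univ _, ha⟩)
  rw [h1, sum_image (fun a _ b _ h => hφ h)]
  exact sum_congr rfl fun a _ => hits_image hφ a

lemma deg_remv {T : SimpleGraph U} {H : SimpleGraph V} {φ : U → V} (hφ : IsCopy T H φ) (v : V) :
    deg (remv T H φ) v + hits T φ v = deg H v := by
  rw [deg, deg, hits, nb, nb]
  rw [← card_union_of_disjoint]
  · congr 1
    ext x
    simp only [mem_union, mem_filter, mem_univ, true_and, remv]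
    constructor
    · rintro (h | h)
      · exact h.1
      · exact hφ.adj h
    · intro h
      by_cases hh : Hit T φ v x
      · exact Or.inr hh
      · exact Or.inl ⟨h, hh⟩
  · rw [disjoint_left]
    intro x hx hx'
    simp only [mem_filter, mem_univ, true_and, remv] at hx hx'
    exact hx.2 hx'

/-- number of common neighbours lost by `u, v`. -/
noncomputable def chits (T : SimpleGraph U) (H : SimpleGraph V) (φ : U → V) (u v : V) : ℕ :=
  ((nb H u ∩ nb H v).filter fun x => Hit T φ u x ∨ Hit T φ v x).card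

lemma codeg_remv {T : SimpleGraph U} {H : SimpleGraph V} {φ : U → V} (u v : V) :
    codeg (remv T H φ) u v + chits T H φ u v = codeg H u v := by
  rw [codeg, codeg, chits, nb, nb, nb, nb]
  rw [← card_union_of_disjoint]
  · congr 1
    ext x
    simp only [mem_union, mem_filter, mem_univ, true_and, remv, mem_inter]
    tauto
  · rw [disjoint_left]
    intro x hx hx'
    simp only [mem_filter, mem_univ, true_and, remv, mem_inter] at hx hx'
    tauto

lemma chits_le {T : SimpleGraph U} {H : SimpleGraph V} {φ : U → V} (hφ : Function.Injective φ)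
    {Δ : ℕ} (hΔ : ∀ u, deg T u ≤ Δ) (u v : V) : chits T H φ u v ≤ 2 * Δ := by
  have h1 : ((nb H u ∩ nb H v).filter fun x => Hit T φ u x ∨ Hit T φ v x) ⊆
      (univ.filter fun x => Hit T φ u x) ∪ (univ.filter fun x => Hit T φ v x) := by
    intro x hx
    simp only [mem_filter, mem_union, mem_univ, true_and] at hx ⊢
    exact hx.2
  have h2 := card_le_card h1
  have h3 := card_union_le (univ.filter fun x => Hit T φ u x) (univ.filter fun x => Hit T φ v x)
  have h4 := hits_le hφ hΔ u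
  have h5 := hits_le hφ hΔ v
  rw [hits] at h4 h5
  rw [chits]
  omega

lemma deg_mono {H H' : SimpleGraph V} (h : H ≤ H') (v : V) : deg H v ≤ deg H' v :=
  card_le_card fun _ hx => mem_nb.2 (h (mem_nb.1 hx))

lemma codeg_mono {H H' : SimpleGraph V} (h : H ≤ H') (u v : V) : codeg H u v ≤ codeg H' u v := by
  apply card_le_card
  intro x hx
  rw [mem_inter, mem_nb, mem_nb] at hx ⊢
  exact ⟨h hx.1, h hx.2⟩

end basic

section weights

variable {U V : Type} [Fintype U] [Fintype V] {T : SimpleGraph U} {H : SimpleGraph V}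
  {m Δ d : ℕ} {ε α Φ : ℝ} {w : (U → V) → ℝ}

lemma IsWeight.use_nonneg (hw : IsWeight T H m Δ d ε α Φ w) (z y : V) : 0 ≤ use T w z y := by
  apply sum_nonneg
  intro φ _
  split_ifs
  · exact hw.nonneg φ
  · exact le_rfl

lemma IsWeight.both_nonneg (hw : IsWeight T H m Δ d ε α Φ w) (u v x : V) :
    0 ≤ both T w u v x := by
  apply sum_nonneg
  intro φ _
  split_ifs
  · exact hw.nonneg φ
  · exact le_rfl

lemma IsWeight.use_eq_zero (hw : IsWeight T H m Δ d ε α Φ w) {z y : V} (h : ¬ H.Adj z y) :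
    use T w z y = 0 := by
  apply sum_eq_zero
  intro φ _
  split_ifs with hh
  · by_contra h0
    exact h ((hw.supp φ h0).adj hh)
  · rfl

lemma IsWeight.both_le_use (hw : IsWeight T H m Δ d ε α Φ w) (u v x : V) :
    both T w u v x ≤ use T w u x := by
  apply sum_le_sum
  intro φ _
  have := hw.nonneg φ
  by_cases h1 : Hit T φ u x <;> by_cases h2 : Hit T φ v x <;> simp [h1, h2, this]

/-- expected number of removed edges at `v`. -/
lemma IsWeight.sum_hits (hw : IsWeight T H m Δ d ε α Φ w) (v : V) :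
    ∑ φ : U → V, w φ * hits T φ v = ∑ x ∈ nb H v, use T w v x := by
  have h1 : ∑ x ∈ nb H v, use T w v x = ∑ x : V, use T w v x := by
    apply sum_subset (subset_univ _)
    intro x _ hx
    apply hw.use_eq_zero
    rwa [mem_nb] at hx
  rw [h1]
  unfold use
  rw [sum_comm]
  apply sum_congr rfl
  intro φ _
  rw [← sum_filter, sum_const, hits, nsmul_eq_mul, mul_comm]

lemma IsWeight.sum_chits (hw : IsWeight T H m Δ d ε α Φ w) (u v : V) :
    ∑ φ : U → V, w φ * chits T H φ u v =
      ∑ x ∈ nb H u ∩ nb H v, (use T w u x + use T w v x - both T w u v x) := by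
  unfold use both
  simp_rw [← sum_add_distrib, ← sum_sub_distrib]
  rw [sum_comm]
  apply sum_congr rfl
  intro φ _
  rw [chits, card_filter]
  push_cast
  rw [mul_sum]
  apply sum_congr rfl
  intro x _
  by_cases h1 : Hit T φ u x <;> by_cases h2 : Hit T φ v x <;> simp [h1, h2]

lemma IsWeight.total (hw : IsWeight T H m Δ d ε α Φ w) (hm : T.edgeSet.ncard = m) (hm1 : 1 ≤ m)
    (hdeg : ∀ v, deg H v ≤ d) : ∑ φ : U → V, w φ ≤ Fintype.card V * d := by
  have h1 : ∑ φ : U → V, w φ * (2 * m) = ∑ v : V, ∑ x ∈ nb H v, use T w v x := by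
    rw [← sum_congr rfl (fun v _ => hw.sum_hits v), sum_comm]
    apply sum_congr rfl
    intro φ _
    rw [← mul_sum]
    by_cases h0 : w φ = 0
    · simp [h0]
    · have := GHApprox.sum_hits (T := T) (hw.supp φ h0).1
      congr 1
      rw [← Nat.cast_sum, this, hm]
      push_cast
      ring
  have h2 : ∑ v : V, ∑ x ∈ nb H v, use T w v x ≤ ∑ v : V, ∑ x ∈ nb H v, (2 * m : ℝ) := by
    apply sum_le_sum
    intro v _
    apply sum_le_sum
    intro x hx
    exact hw.edge v x (mem_nb.1 hx)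
  have h3 : ∑ v : V, ∑ x ∈ nb H v, (2 * m : ℝ) ≤ Fintype.card V * d * (2 * m) := by
    have : ∀ v : V, ∑ x ∈ nb H v, (2 * m : ℝ) ≤ d * (2 * m) := by
      intro v
      rw [sum_const, nsmul_eq_mul]
      have : ((nb H v).card : ℝ) ≤ d := by exact_mod_cast hdeg v
      exact mul_le_mul_of_nonneg_right this (by positivity)
    calc _ ≤ ∑ v : V, (d * (2 * m) : ℝ) := sum_le_sum fun v _ => this v
      _ = _ := by rw [sum_const, nsmul_eq_mul, card_univ]; ring
  rw [← sum_mul] at h1
  have hm' : (0 : ℝ) < 2 * m := by positivity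
  have := h1.trans_le (h2.trans h3)
  exact le_of_mul_le_mul_right this hm'

end weights

section average

variable {ι : Type} [Fintype ι]

/-- averaging: a choice that is not worse than the mean. -/
lemma exists_le_of_mean (p F : ι → ℝ) (F0 C : ℝ) (hp : ∀ i, 0 ≤ p i) (hp1 : ∑ i, p i ≤ 1)
    (h : ∑ i, p i * F i + (1 - ∑ i, p i) * F0 ≤ C) : (∃ i, p i ≠ 0 ∧ F i ≤ C) ∨ F0 ≤ C := by
  by_contra hcon
  push Not at hcon
  obtain ⟨h1, h2⟩ := hcon
  have h3 : ∑ i, p i * (F i - C) + (1 - ∑ i, p i) * (F0 - C) ≤ 0 := by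
    have : ∑ i, p i * (F i - C) = ∑ i, p i * F i - (∑ i, p i) * C := by
      rw [sum_mul, ← sum_sub_distrib]
      exact sum_congr rfl fun i _ => by ring
    rw [this]
    linarith
  have h4 : ∀ i, 0 ≤ p i * (F i - C) := by
    intro i
    by_cases hi : p i = 0
    · simp [hi]
    · exact mul_nonneg (hp i) (by linarith [h1 i hi])
  have h5 : 0 ≤ (1 - ∑ i, p i) * (F0 - C) := mul_nonneg (by linarith) (by linarith)
  have h6 : 0 ≤ ∑ i, p i * (F i - C) := sum_nonneg fun i _ => h4 i
  have h7 : (1 - ∑ i, p i) * (F0 - C) = 0 := by linarith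
  have h8 : ∑ i, p i * (F i - C) = 0 := by linarith
  have h9 : ∑ i, p i = 1 := by
    rcases mul_eq_zero.1 h7 with h | h
    · linarith
    · linarith
  have h10 : ∃ i, p i ≠ 0 := by
    by_contra hc
    push Not at hc
    rw [sum_eq_zero fun i _ => hc i] at h9
    norm_num at h9
  obtain ⟨i, hi⟩ := h10
  have h11 := (sum_eq_zero_iff_of_nonneg fun i _ => h4 i).1 h8 i (mem_univ _)
  rcases mul_eq_zero.1 h11 with h | h
  · exact hi h
  · linarith [h1 i hi]

/-- exponential moment of one centred bounded variable. -/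
lemma exp_mean (p h : ι → ℝ) (D κ : ℝ) (hp : ∀ i, 0 ≤ p i) (hp1 : ∑ i, p i ≤ 1)
    (h0 : ∀ i, p i ≠ 0 → 0 ≤ h i ∧ h i ≤ D) (hD : 0 ≤ D) (hκ : |κ| * D ≤ 1) :
    ∑ i, p i * Real.exp (κ * (∑ j, p j * h j - h i)) +
      (1 - ∑ i, p i) * Real.exp (κ * (∑ j, p j * h j)) ≤ 1 + κ ^ 2 * D * ∑ j, p j * h j := by
  set μ := ∑ j, p j * h j with hμ
  have hμ0 : 0 ≤ μ := by
    apply sum_nonneg
    intro i _
    by_cases hi : p i = 0
    · simp [hi]
    · exact mul_nonneg (hp i) (h0 i hi).1
  have hμD : μ ≤ D := by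
    calc μ ≤ ∑ j, p j * D := by
          apply sum_le_sum
          intro i _
          by_cases hi : p i = 0
          · simp [hi]
          · exact mul_le_mul_of_nonneg_left (h0 i hi).2 (hp i)
      _ = (∑ j, p j) * D := by rw [sum_mul]
      _ ≤ 1 * D := mul_le_mul_of_nonneg_right hp1 hD
      _ = D := one_mul D
  have hexp : ∀ z : ℝ, |z| ≤ D → Real.exp (κ * z) ≤ 1 + κ * z + κ ^ 2 * z ^ 2 := by
    intro z hz
    have h1 : |κ * z| ≤ 1 := by
      rw [abs_mul]
      exact le_trans (mul_le_mul_of_nonneg_left hz (abs_nonneg _)) hκ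
    have h2 := Real.abs_exp_sub_one_sub_id_le h1
    have h3 := (abs_le.1 h2).2
    nlinarith [h3]
  have e1 : ∀ i, p i * Real.exp (κ * (μ - h i)) ≤
      p i * (1 + κ * (μ - h i) + κ ^ 2 * (μ - h i) ^ 2) := by
    intro i
    by_cases hi : p i = 0
    · simp [hi]
    · apply mul_le_mul_of_nonneg_left _ (hp i)
      apply hexp
      rw [abs_le]
      constructor <;> linarith [(h0 i hi).1, (h0 i hi).2]
  have e2 : (1 - ∑ i, p i) * Real.exp (κ * μ) ≤
      (1 - ∑ i, p i) * (1 + κ * μ + κ ^ 2 * μ ^ 2) := by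
    apply mul_le_mul_of_nonneg_left _ (by linarith)
    apply hexp
    rw [abs_le]
    constructor <;> linarith
  have e3 : ∑ i, p i * (1 + κ * (μ - h i) + κ ^ 2 * (μ - h i) ^ 2) =
      (∑ i, p i) * (1 + κ * μ + κ ^ 2 * μ ^ 2) - κ * μ - 2 * κ ^ 2 * μ * μ +
        κ ^ 2 * ∑ i, p i * h i ^ 2 := by
    have : ∀ i, p i * (1 + κ * (μ - h i) + κ ^ 2 * (μ - h i) ^ 2) =
        p i * (1 + κ * μ + κ ^ 2 * μ ^ 2) - κ * (p i * h i) - 2 * κ ^ 2 * μ * (p i * h i) +
          κ ^ 2 * (p i * h i ^ 2) := fun i => by ring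
    rw [sum_congr rfl fun i _ => this i, sum_add_distrib, sum_sub_distrib, sum_sub_distrib,
      ← sum_mul, ← mul_sum, ← mul_sum, ← mul_sum, ← hμ]
  have e4 : ∑ i, p i * h i ^ 2 ≤ D * μ := by
    rw [hμ, mul_sum]
    apply sum_le_sum
    intro i _
    by_cases hi : p i = 0
    · simp [hi]
    · have := (h0 i hi)
      have h' : h i ^ 2 ≤ D * h i := by nlinarith
      calc p i * h i ^ 2 ≤ p i * (D * h i) := mul_le_mul_of_nonneg_left h' (hp i)
        _ = D * (p i * h i) := by ring
  have e5 := sum_le_sum fun i (_ : i ∈ (univ : Finset ι)) => e1 i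
  rw [e3] at e5
  have e6 : κ ^ 2 * ∑ i, p i * h i ^ 2 ≤ κ ^ 2 * (D * μ) :=
    mul_le_mul_of_nonneg_left e4 (sq_nonneg _)
  have e7 : 0 ≤ κ ^ 2 * μ * μ := by positivity
  nlinarith [e5, e2, e6, e7]

end average

end Pool.Agent.Lib.GHApprox
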